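import Mathlib

/-!
# The arithmetic of the sharp line
-/

namespace Pool.Agent.N984.T3

noncomputable section

/-- the difference of two values of the law -/
lemma law_diff {k A₁ A₂ q₁ q₂ c2 D Q : ℝ} (hk : 1 ≤ k) (h1 : k / 2 ≤ A₁) (h2 : k / 2 ≤ A₂)
    (hq : |q₁ - q₂| ≤ D) (hQ : |c2 + 3 * q₂| ≤ Q) :
    |(c2 + 3 * q₁) / A₁ - (c2 + 3 * q₂) / A₂| ≤ 6 * D / k + 4 * Q * |A₁ - A₂| / k ^ 2 := by
  have hk0 : 0 < k := by linarith
  have a1 : 0 < A₁ := by linarith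
  have a2 : 0 < A₂ := by linarith
  have e : (c2 + 3 * q₁) / A₁ - (c2 + 3 * q₂) / A₂ =
      3 * (q₁ - q₂) / A₁ + (c2 + 3 * q₂) * (A₂ - A₁) / (A₁ * A₂) := by
    field_simp
    ring
  rw [e]
  refine (abs_add_le _ _).trans (add_le_add ?_ ?_)
  · rw [abs_div, abs_mul, abs_of_pos a1, abs_of_pos (by norm_num : (0 : ℝ) < 3)]
    rw [div_le_div_iff₀ a1 hk0]
    have h3 : 0 ≤ |q₁ - q₂| := abs_nonneg _
    have h4 : |q₁ - q₂| * k ≤ D * (2 * A₁) :=
      mul_le_mul hq (by linarith) hk0.le (h3.trans hq)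
    linarith
  · rw [abs_div, abs_mul, abs_of_pos (by positivity : 0 < A₁ * A₂), abs_sub_comm A₂ A₁]
    rw [div_le_div_iff₀ (by positivity) (by positivity)]
    have h3 : k ^ 2 ≤ 4 * (A₁ * A₂) := by
      have := mul_le_mul h1 h2 (by positivity) a1.le
      linarith
    have h4 : 0 ≤ |c2 + 3 * q₂| := abs_nonneg _
    have h5 : |c2 + 3 * q₂| * |A₁ - A₂| ≤ Q * |A₁ - A₂| :=
      mul_le_mul_of_nonneg_right hQ (abs_nonneg _)
    have h6 : 0 ≤ Q * |A₁ - A₂| := mul_nonneg (h4.trans hQ) (abs_nonneg _)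
    calc |c2 + 3 * q₂| * |A₁ - A₂| * k ^ 2 ≤ Q * |A₁ - A₂| * (4 * (A₁ * A₂)) :=
          mul_le_mul h5 h3 (by positivity) h6
      _ = _ := by ring

lemma fin1 {n c G K l V : ℝ} (hn : 0 ≤ n) (hc : 0 ≤ c) (hG : 0 ≤ G) (hK : 0 ≤ K) (hl : 0 ≤ l)
    (hV : 0 ≤ V) : 50 * (n * l + (c + 18 * n) * V + 2 * (K * V)) * (1 + G) + G * V +
      G * (n * V + (c + 18 * n) * V + 4 * (K * V)) ≤
      200000 * (1 + G) * (1 + n + c + K) * (l + V) := by
  refine sub_nonneg.1 ?_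
  ring_nf
  positivity

lemma fin2 {n c G K l V : ℝ} (hn : 0 ≤ n) (hc : 0 ≤ c) (hG : 0 ≤ G) (hK : 0 ≤ K) (hl : 0 ≤ l)
    (hV : 0 ≤ V) : n * l + (c + 18 * n) * V + 4 * (K * V) ≤
      200000 * (1 + G) * (1 + n + c + K) * (l + V) := by
  refine sub_nonneg.1 ?_
  ring_nf
  positivity

lemma fin3 {n c G K l V : ℝ} (hn : 0 ≤ n) (hc : 0 ≤ c) (hG : 0 ≤ G) (hK : 0 ≤ K) (hl : 0 ≤ l)
    (hV : 0 ≤ V) : n * l + (c + 18 * n) * V + 2 * (K * V) ≤
      200000 * (1 + G) * (1 + n + c + K) * (l + V) := by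
  refine sub_nonneg.1 ?_
  ring_nf
  positivity

lemma fin4 {K G W V : ℝ} (hG : 0 ≤ G) (hV : 0 ≤ V) :
    5000 * (K * (W + V)) + 50 * (G * W + G * (K * (W + V))) + G * (K * (W + V)) ≤
      (5000 * K + 50 * G + 50 * G * K + G * K) * (W + V) := by
  refine sub_nonneg.1 ?_
  ring_nf
  positivity

lemma fin5 {K G Z l W V t s : ℝ} (hK : 0 ≤ K) (hG : 0 ≤ G) (hZ : 0 ≤ Z) (hl : 0 ≤ l) (hW : 0 ≤ W)
    (hV : 0 ≤ V) (ht : 0 ≤ t) (hs : 0 ≤ s) (h : Z * (s * V) ≤ Z * (t * V)) :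
    t * (K * (l * W + V)) + s * (Z * (W + V)) + s * (2 * (G * W)) ≤
      (1 + Z + 2 * G + K) * (t * (l * W + V) + s * W) := by
  have h2 : t * (K * (l * W + V)) + s * (Z * W) + Z * (t * V) + s * (2 * (G * W)) ≤
      (1 + Z + 2 * G + K) * (t * (l * W + V) + s * W) := by
    refine sub_nonneg.1 ?_
    ring_nf
    positivity
  refine le_trans ?_ h2
  linarith

/-- the constant of the sharp line -/
def Ksh (n' c2 K G : ℝ) : ℝ :=
  (1 + G) * (5000 * n' + 8 * (|c2| + 18 * n') + 1000 * K) + G +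
    G * (24 * n' + 8 * (|c2| + 18 * n') + 20 * K) + G + 200000 * (1 + G) * (1 + n' + |c2| + K)

/-- **the arithmetic of the sharp line** -/
theorem sharp_arith {k M a a1 lam g c kp km k0 qp qm q0 n' c2 c1 K G : ℝ} (hk : 1 ≤ k)
    (hM : 0 ≤ M) (ha : |a| ≤ 1) (hlam : 0 ≤ lam) (hn : 0 ≤ n') (hK : 0 ≤ K) (hG : 0 ≤ G)
    (h1 : |kp - ((k + 1 / 100 * a) / 2 - c1 + (c2 + 3 * qp) / (k + 1 / 100 * a))| ≤
      K * (1 + M) / k ^ 2)
    (h2 : |km - ((k - 1 / 100 * a) / 2 - c1 + (c2 + 3 * qm) / (k - 1 / 100 * a))| ≤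
      K * (1 + M) / k ^ 2)
    (h3 : |k0 - (k / 2 - c1 + (c2 + 3 * q0) / k)| ≤ K * (1 + M) / k ^ 2)
    (hq : |qp - qm| ≤ 6 * n' * (1 / 100) * lam)
    (hqp : |qp - q0| ≤ 6 * n' * (1 / 100)) (hqm : |qm - q0| ≤ 6 * n' * (1 / 100))
    (hqM : |q0| ≤ 3 * n' * M)
    (hg : |g| ≤ G / k) (hc : |c| ≤ G / k ^ 2)
    (hid : (kp - km) * (1 + (1 / 100) ^ 2 * c) + 1 / 100 * g * (kp + km) =
      2 * (1 / 100) * (a1 + k0 * g)) :
    |a1 - a / 2| ≤ Ksh n' c2 K G * (lam / k + (1 + M) / k ^ 2) ∧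
    |kp + km - 2 * k0| ≤ Ksh n' c2 K G * (1 / k + (1 + M) / k ^ 2) ∧
    |kp - km| ≤ 1 / 100 + Ksh n' c2 K G * (lam / k + (1 + M) / k ^ 2) := by
  have hk0 : 0 < k := by linarith
  have ha' := abs_le.1 ha
  obtain ⟨Q, hQd⟩ : ∃ Q : ℝ, Q = |c2| + 18 * n' * (1 + M) := ⟨_, rfl⟩
  have hc2 : 0 ≤ |c2| := abs_nonneg _
  have hnM : 0 ≤ n' * M := by positivity
  have hQ0 : |c2 + 3 * q0| ≤ Q := by
    refine (abs_add_le _ _).trans ?_
    rw [abs_mul, abs_of_pos (by norm_num : (0 : ℝ) < 3), hQd]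
    linarith
  have hqm' : |qm| ≤ 3 * n' * M + 6 * n' * (1 / 100) := by
    have e : qm = (qm - q0) + q0 := by ring
    rw [e]
    refine (abs_add_le _ _).trans ?_
    linarith
  have hqp' : |qp| ≤ 3 * n' * M + 6 * n' * (1 / 100) := by
    have e : qp = (qp - q0) + q0 := by ring
    rw [e]
    refine (abs_add_le _ _).trans ?_
    linarith
  have hQm : |c2 + 3 * qm| ≤ Q := by
    refine (abs_add_le _ _).trans ?_
    rw [abs_mul, abs_of_pos (by norm_num : (0 : ℝ) < 3), hQd]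
    linarith
  have hQ' : Q ≤ (|c2| + 18 * n') * (1 + M) := by
    rw [hQd]
    have : 0 ≤ |c2| * M := by positivity
    linarith
  have hA1 : k / 2 ≤ k + 1 / 100 * a := by linarith
  have hA2 : k / 2 ≤ k - 1 / 100 * a := by linarith
  have hA3 : k / 2 ≤ k := by linarith
  have d1 := law_diff hk hA1 hA2 hq hQm
  have d2 := law_diff hk hA1 hA3 hqp hQ0
  have d3 := law_diff hk hA2 hA3 hqm hQ0
  have e1 : |(k + 1 / 100 * a) - (k - 1 / 100 * a)| ≤ 1 / 50 := by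
    rw [abs_le]; constructor <;> linarith
  have e2 : |(k + 1 / 100 * a) - k| ≤ 1 / 100 := by
    rw [abs_le]; constructor <;> linarith
  have e3 : |(k - 1 / 100 * a) - k| ≤ 1 / 100 := by
    rw [abs_le]; constructor <;> linarith
  obtain ⟨V, hV⟩ : ∃ V : ℝ, V = (1 + M) / k ^ 2 := ⟨_, rfl⟩
  have hV0 : 0 ≤ V := by rw [hV]; positivity
  have hKV : K * (1 + M) / k ^ 2 = K * V := by rw [hV]; ring
  rw [hKV] at h1 h2 h3
  have hQk : Q / k ^ 2 ≤ (|c2| + 18 * n') * V := by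
    rw [hV, ← mul_div_assoc]
    exact div_le_div_of_nonneg_right hQ' (by positivity)
  have hQn : 0 ≤ Q := (abs_nonneg _).trans hQ0
  have f1 : 4 * Q * |(k + 1 / 100 * a) - (k - 1 / 100 * a)| / k ^ 2 ≤
      4 * (1 / 50) * ((|c2| + 18 * n') * V) := by
    have : 4 * Q * |(k + 1 / 100 * a) - (k - 1 / 100 * a)| / k ^ 2 =
        4 * |(k + 1 / 100 * a) - (k - 1 / 100 * a)| * (Q / k ^ 2) := by ring
    rw [this]
    exact mul_le_mul (by linarith) hQk (by positivity) (by norm_num)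
  have f2 : 4 * Q * |(k + 1 / 100 * a) - k| / k ^ 2 ≤
      4 * (1 / 50) * ((|c2| + 18 * n') * V) := by
    have : 4 * Q * |(k + 1 / 100 * a) - k| / k ^ 2 =
        4 * |(k + 1 / 100 * a) - k| * (Q / k ^ 2) := by ring
    rw [this]
    exact mul_le_mul (by linarith) hQk (by positivity) (by norm_num)
  have f3 : 4 * Q * |(k - 1 / 100 * a) - k| / k ^ 2 ≤
      4 * (1 / 50) * ((|c2| + 18 * n') * V) := by
    have : 4 * Q * |(k - 1 / 100 * a) - k| / k ^ 2 =
        4 * |(k - 1 / 100 * a) - k| * (Q / k ^ 2) := by ring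
    rw [this]
    exact mul_le_mul (by linarith) hQk (by positivity) (by norm_num)
  obtain ⟨U, hU⟩ : ∃ U : ℝ, U = (|c2| + 18 * n') * V := ⟨_, rfl⟩
  rw [← hU] at f1 f2 f3
  have hU0 : 0 ≤ U := by rw [hU]; positivity
  obtain ⟨W, hW⟩ : ∃ W : ℝ, W = 1 / k := ⟨_, rfl⟩
  have hW0 : 0 < W := by rw [hW]; positivity
  have hW1 : W ≤ 1 := by rw [hW]; rw [div_le_one hk0]; exact hk
  have hGk : G / k = G * W := by rw [hW]; ring
  have hGk2 : G / k ^ 2 = G * W ^ 2 := by rw [hW]; field_simp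
  have hWV : W ^ 2 ≤ V := by
    rw [hV, hW, div_pow, one_pow]
    exact div_le_div_of_nonneg_right (by linarith) (by positivity)
  have hlk : lam / k = lam * W := by rw [hW]; ring
  have d1' : |(c2 + 3 * qp) / (k + 1 / 100 * a) - (c2 + 3 * qm) / (k - 1 / 100 * a)| ≤
      n' * (lam * W) + U := by
    refine (d1.trans (add_le_add_right f1 _)).trans ?_
    have e : 6 * (6 * n' * (1 / 100) * lam) / k = 36 / 100 * (n' * (lam * W)) := by
      rw [hW]; ring
    rw [e]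
    have : 0 ≤ n' * (lam * W) := by positivity
    linarith
  have d2' : |(c2 + 3 * qp) / (k + 1 / 100 * a) - (c2 + 3 * q0) / k| ≤
      1 / 2 * (n' * W) + 1 / 2 * U := by
    refine (d2.trans (add_le_add_right f2 _)).trans ?_
    have e : 6 * (6 * n' * (1 / 100)) / k = 36 / 100 * (n' * W) := by
      rw [hW]; ring
    rw [e]
    have : 0 ≤ n' * W := by positivity
    linarith
  have d3' : |(c2 + 3 * qm) / (k - 1 / 100 * a) - (c2 + 3 * q0) / k| ≤
      1 / 2 * (n' * W) + 1 / 2 * U := by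
    refine (d3.trans (add_le_add_right f3 _)).trans ?_
    have e : 6 * (6 * n' * (1 / 100)) / k = 36 / 100 * (n' * W) := by
      rw [hW]; ring
    rw [e]
    have : 0 ≤ n' * W := by positivity
    linarith
  clear d1 d2 d3 f1 f2 f3
  obtain ⟨X1, hX1⟩ : ∃ X1 : ℝ, X1 = (c2 + 3 * qp) / (k + 1 / 100 * a) := ⟨_, rfl⟩
  obtain ⟨X2, hX2⟩ : ∃ X2 : ℝ, X2 = (c2 + 3 * qm) / (k - 1 / 100 * a) := ⟨_, rfl⟩
  obtain ⟨X3, hX3⟩ : ∃ X3 : ℝ, X3 = (c2 + 3 * q0) / k := ⟨_, rfl⟩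
  rw [← hX1] at h1 d1' d2'
  rw [← hX2] at h2 d1' d3'
  rw [← hX3] at h3 d2' d3'
  -- the difference
  have g1' : |kp - km - 1 / 100 * a| ≤ n' * (lam * W) + U + 2 * (K * V) := by
    rw [abs_le] at h1 h2 d1' ⊢
    constructor <;> linarith [h1.1, h1.2, h2.1, h2.2, d1'.1, d1'.2]
  have g2' : |kp + km - 2 * k0| ≤ n' * W + U + 4 * (K * V) := by
    rw [abs_le] at h1 h2 h3 d2' d3' ⊢
    constructor <;> linarith [h1.1, h1.2, h2.1, h2.2, h3.1, h3.2, d2'.1, d2'.2, d3'.1, d3'.2]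
  rw [hGk] at hg
  rw [hGk2] at hc
  have hlW : 0 ≤ lam * W := by positivity
  have hVle : W * V ≤ V := mul_le_of_le_one_left hV0 hW1
  have hlk' : lam / k + (1 + M) / k ^ 2 = lam * W + V := by rw [hlk, hV]
  have h1k : 1 / k + (1 + M) / k ^ 2 = W + V := by rw [hW, hV]
  rw [hlk', h1k]
  have hK' : Ksh n' c2 K G = (1 + G) * (5000 * n' + 8 * (|c2| + 18 * n') + 1000 * K) + G +
    G * (24 * n' + 8 * (|c2| + 18 * n') + 20 * K) + G + 200000 * (1 + G) * (1 + n' + |c2| + K) :=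
    rfl
  -- the bound of the constant
  have hKs : 200000 * (1 + G) * (1 + n' + |c2| + K) ≤ Ksh n' c2 K G := by
    rw [hK']
    have : 0 ≤ (1 + G) * (5000 * n' + 8 * (|c2| + 18 * n') + 1000 * K) := by positivity
    have : 0 ≤ G * (24 * n' + 8 * (|c2| + 18 * n') + 20 * K) := by positivity
    linarith
  have hGn : 0 ≤ G * n' := by positivity
  have hGc : 0 ≤ G * |c2| := by positivity
  have hGK : 0 ≤ G * K := by positivity
  refine ⟨?_, ?_, ?_⟩
  · -- the sharp line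
    have e : a1 - a / 2 = 50 * (kp - km - 1 / 100 * a) * (1 + (1 / 100) ^ 2 * c) +
        a / 2 * ((1 / 100) ^ 2 * c) + g / 2 * (kp + km - 2 * k0) := by
      linear_combination (-50) * hid
    rw [e]
    have hc' : |c| ≤ G := hc.trans (mul_le_of_le_one_right hG (pow_le_one₀ hW0.le hW1))
    have t1 : |50 * (kp - km - 1 / 100 * a) * (1 + (1 / 100) ^ 2 * c)| ≤
        50 * (n' * (lam * W) + U + 2 * (K * V)) * (1 + G) := by
      rw [abs_mul, abs_mul, abs_of_pos (by norm_num : (0 : ℝ) < 50)]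
      refine mul_le_mul (mul_le_mul_of_nonneg_left g1' (by norm_num)) ?_ (abs_nonneg _)
        (by positivity)
      refine (abs_add_le _ _).trans ?_
      rw [abs_one, abs_mul, abs_of_pos (by norm_num : (0 : ℝ) < (1 / 100) ^ 2)]
      have := abs_nonneg c
      linarith
    have t2 : |a / 2 * ((1 / 100) ^ 2 * c)| ≤ G * V := by
      rw [abs_mul, abs_mul, abs_div, abs_two, abs_of_pos (by norm_num : (0 : ℝ) < (1 / 100) ^ 2)]
      have h5 : |a| / 2 * ((1 / 100) ^ 2 * |c|) ≤ 1 * |c| := by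
        have := abs_nonneg c
        have := mul_le_mul (by linarith : |a| / 2 ≤ 1) (by linarith : (1 / 100) ^ 2 * |c| ≤ |c|)
          (by positivity) (by norm_num)
        linarith
      have h6 : G * W ^ 2 ≤ G * V := mul_le_mul_of_nonneg_left hWV hG
      linarith
    have t3 : |g / 2 * (kp + km - 2 * k0)| ≤ G * W * (n' * W + U + 4 * (K * V)) := by
      rw [abs_mul, abs_div, abs_two]
      refine mul_le_mul ?_ g2' (abs_nonneg _) (by positivity)
      have := abs_nonneg g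
      linarith
    have t4 : G * W * (n' * W + U + 4 * (K * V)) ≤ G * (n' * V + U + 4 * (K * V)) := by
      have e : G * W * (n' * W + U + 4 * (K * V)) =
          G * (n' * W ^ 2 + W * U + 4 * (K * (W * V))) := by ring
      rw [e]
      refine mul_le_mul_of_nonneg_left ?_ hG
      have h5 : W * U ≤ U := mul_le_of_le_one_left hU0 hW1
      have h6 := mul_le_mul_of_nonneg_left hWV hn
      have h7 := mul_le_mul_of_nonneg_left hVle hK
      linarith
    refine (abs_add_le _ _).trans ((add_le_add ((abs_add_le _ _).trans (add_le_add t1 t2))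
      (t3.trans t4)).trans ?_)
    refine le_trans ?_ (mul_le_mul_of_nonneg_right hKs (by positivity))
    rw [hU]
    exact (le_of_eq (by ring)).trans (fin1 hn hc2 hG hK hlW hV0)
  · refine g2'.trans ?_
    refine le_trans ?_ (mul_le_mul_of_nonneg_right hKs (by positivity))
    rw [hU]
    exact fin2 hn hc2 hG hK hW0.le hV0
  · have e : kp - km = (kp - km - 1 / 100 * a) + 1 / 100 * a := by ring
    have h7 : |kp - km| ≤ n' * (lam * W) + U + 2 * (K * V) + 1 / 100 := by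
      rw [e]
      refine (abs_add_le _ _).trans (add_le_add g1' ?_)
      rw [abs_mul, abs_of_pos (by norm_num : (0 : ℝ) < 1 / 100)]
      linarith
    refine h7.trans ?_
    rw [add_comm (1 / 100 : ℝ)]
    refine add_le_add (le_trans ?_ (mul_le_mul_of_nonneg_right hKs (by positivity))) le_rfl
    rw [hU]
    exact fin3 hn hc2 hG hK hlW hV0

/-- **the arithmetic of the sharp line for finite perturbations** -/
theorem sharp_finite {k M a lam g c kp km k0 kt t K₁ G : ℝ} (hk : 1 ≤ k) (hkG : 4 * G ≤ k)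
    (hM : 0 ≤ M) (ha : |a| ≤ 1) (hlam : 0 ≤ lam) (hlam1 : lam ≤ 1) (hG : 0 ≤ G) (hK : 0 ≤ K₁)
    (hg : |g| ≤ G / k) (hc : |c| ≤ G / k ^ 2) (ht : |t| ≤ 1 / 100)
    (h1 : |50 * (kp - km) * (1 + (1 / 100) ^ 2 * c) + g / 2 * (kp + km - 2 * k0) - a / 2| ≤
      K₁ * (lam / k + (1 + M) / k ^ 2))
    (h2 : |kp + km - 2 * k0| ≤ K₁ * (1 / k + (1 + M) / k ^ 2))
    (h3 : |kp - km| ≤ 1 / 100 + K₁ * (lam / k + (1 + M) / k ^ 2))
    (hid : kt * (1 + g * t + c * t ^ 2) = (1 - (100 * t) ^ 2) * k0 +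
      ((100 * t) ^ 2 + 100 * t) / 2 * (kp * (1 + g * (1 / 100) + c * (1 / 100) ^ 2)) +
      ((100 * t) ^ 2 - 100 * t) / 2 * (km * (1 - g * (1 / 100) + c * (1 / 100) ^ 2))) :
    |kt - k0 - t * a / 2| ≤
      2 * (1 + 5000 * K₁ + 50 * G + 50 * G * K₁ + G * K₁ + 2 * G + K₁) *
        (|t| * (lam / k + (1 + M) / k ^ 2) + t ^ 2 / k) := by
  have hk0 : 0 < k := by linarith
  have ht0 := abs_nonneg t
  obtain ⟨W, hW⟩ : ∃ W : ℝ, W = 1 / k := ⟨_, rfl⟩
  obtain ⟨V, hV⟩ : ∃ V : ℝ, V = (1 + M) / k ^ 2 := ⟨_, rfl⟩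
  have hW0 : 0 < W := by rw [hW]; positivity
  have hW1 : W ≤ 1 := by rw [hW]; rw [div_le_one hk0]; exact hk
  have hV0 : 0 ≤ V := by rw [hV]; positivity
  have hGW : 4 * (G * W) ≤ 1 := by
    have : 4 * (G * W) = 4 * G / k := by rw [hW]; ring
    rw [this, div_le_one hk0]
    exact hkG
  have hGk : G / k = G * W := by rw [hW]; ring
  have hGk2 : G / k ^ 2 = G * W ^ 2 := by rw [hW]; field_simp
  have hlk : lam / k = lam * W := by rw [hW]; ring
  have htk : t ^ 2 / k = t ^ 2 * W := by rw [hW]; ring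
  rw [hGk] at hg
  rw [hGk2] at hc
  have hW2 : W ^ 2 ≤ W := by
    rw [sq]; exact mul_le_of_le_one_left hW0.le hW1
  have hc' : |c| ≤ G * W := hc.trans (mul_le_mul_of_nonneg_left hW2 hG)
  have hlk' : lam / k + (1 + M) / k ^ 2 = lam * W + V := by rw [hlk, hV]
  have h1k : 1 / k + (1 + M) / k ^ 2 = W + V := by rw [hW, hV]
  rw [hlk'] at h1 h3 ⊢
  rw [h1k] at h2
  rw [htk]
  have ht2 : t ^ 2 ≤ |t| * (1 / 100) := by
    rw [← sq_abs, sq]
    exact mul_le_mul_of_nonneg_left ht ht0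
  have ht21 : t ^ 2 ≤ 1 := by linarith
  obtain ⟨P, hP⟩ : ∃ P : ℝ, P = 50 * (kp - km) * (1 + (1 / 100) ^ 2 * c) +
    g / 2 * (kp + km - 2 * k0) - a / 2 := ⟨_, rfl⟩
  obtain ⟨R, hR⟩ : ∃ R : ℝ, R = 5000 * (kp + km - 2 * k0) + 50 * (g * (kp - km)) +
    c / 2 * (kp + km - 2 * k0) := ⟨_, rfl⟩
  rw [← hP] at h1
  have hD : 1 / 2 ≤ 1 + g * t + c * t ^ 2 := by
    have a1 : |g * t| ≤ 1 / 8 := by
      rw [abs_mul]
      have := mul_le_mul hg ht ht0 (by positivity)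
      linarith
    have a2 : |c * t ^ 2| ≤ 1 / 4 := by
      rw [abs_mul, abs_of_nonneg (sq_nonneg t)]
      have := mul_le_mul hc' ht21 (sq_nonneg t) (by positivity)
      linarith
    have := neg_abs_le (g * t)
    have := neg_abs_le (c * t ^ 2)
    linarith
  have e : (kt - k0 - t * a / 2) * (1 + g * t + c * t ^ 2) =
      t * P + t ^ 2 * R - t * a / 2 * (g * t + c * t ^ 2) := by
    rw [hP, hR]
    linear_combination hid
  have hRb : |R| ≤ (5000 * K₁ + 50 * G + 50 * G * K₁ + G * K₁) * (W + V) := by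
    have r1 : |R| ≤ 5000 * |kp + km - 2 * k0| + 50 * (|g| * |kp - km|) +
        |c| / 2 * |kp + km - 2 * k0| := by
      rw [hR]
      refine (abs_add_le _ _).trans (add_le_add ((abs_add_le _ _).trans (add_le_add ?_ ?_)) ?_)
      · rw [abs_mul, abs_of_pos (by norm_num : (0 : ℝ) < 5000)]
      · rw [abs_mul, abs_mul, abs_of_pos (by norm_num : (0 : ℝ) < 50)]
      · rw [abs_mul, abs_div, abs_two]
    have r2 : |g| * |kp - km| ≤ G * W * (1 / 100 + K₁ * (lam * W + V)) :=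
      mul_le_mul hg h3 (abs_nonneg _) (by positivity)
    have r3 : |c| / 2 * |kp + km - 2 * k0| ≤ G * (K₁ * (W + V)) := by
      refine mul_le_mul ?_ h2 (abs_nonneg _) hG
      have : G * W ≤ G := mul_le_of_le_one_right hG hW1
      have := abs_nonneg c
      linarith
    have r4 : G * W * (1 / 100 + K₁ * (lam * W + V)) ≤ G * W + G * (K₁ * (W + V)) := by
      have s1 : lam * W + V ≤ W + V := by
        have : lam * W ≤ W := mul_le_of_le_one_left hW0.le hlam1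
        linarith
      have s2 : G * W * (K₁ * (lam * W + V)) ≤ G * (K₁ * (W + V)) := by
        refine mul_le_mul (mul_le_of_le_one_right hG hW1) (mul_le_mul_of_nonneg_left s1 hK)
          (by positivity) hG
      have s3 : 0 ≤ G * W := by positivity
      linarith
    have r5 : |R| ≤ 5000 * (K₁ * (W + V)) + 50 * (G * W + G * (K₁ * (W + V))) +
        G * (K₁ * (W + V)) := by
      refine r1.trans (add_le_add (add_le_add ?_ ?_) r3)
      · exact mul_le_mul_of_nonneg_left h2 (by norm_num)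
      · exact mul_le_mul_of_nonneg_left (r2.trans r4) (by norm_num)
    exact r5.trans (fin4 hG hV0)
  have hkey : |kt - k0 - t * a / 2| * (1 + g * t + c * t ^ 2) ≤
      (1 + 5000 * K₁ + 50 * G + 50 * G * K₁ + G * K₁ + 2 * G + K₁) *
        (|t| * (lam * W + V) + t ^ 2 * W) := by
    rw [← abs_of_pos (by linarith : 0 < 1 + g * t + c * t ^ 2), ← abs_mul, e]
    have q1 : |t * P| ≤ |t| * (K₁ * (lam * W + V)) := by
      rw [abs_mul]
      exact mul_le_mul_of_nonneg_left h1 ht0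
    have q2 : |t ^ 2 * R| ≤ t ^ 2 * ((5000 * K₁ + 50 * G + 50 * G * K₁ + G * K₁) * (W + V)) := by
      rw [abs_mul, abs_of_nonneg (sq_nonneg t)]
      exact mul_le_mul_of_nonneg_left hRb (sq_nonneg t)
    have q3 : |t * a / 2 * (g * t + c * t ^ 2)| ≤ t ^ 2 * (2 * (G * W)) := by
      have e3 : t * a / 2 * (g * t + c * t ^ 2) = t ^ 2 * (a / 2 * (g + c * t)) := by ring
      rw [e3, abs_mul, abs_of_nonneg (sq_nonneg t)]
      refine mul_le_mul_of_nonneg_left ?_ (sq_nonneg t)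
      rw [abs_mul, abs_div, abs_two]
      have e4 : |g + c * t| ≤ 2 * (G * W) := by
        refine (abs_add_le _ _).trans ?_
        rw [abs_mul]
        have := mul_le_mul hc' (ht.trans (by norm_num : (1 / 100 : ℝ) ≤ 1)) ht0 (by positivity)
        linarith
      have := mul_le_mul (by linarith : |a| / 2 ≤ 1) e4 (abs_nonneg _) (by norm_num)
      linarith
    obtain ⟨Z, hZ⟩ : ∃ Z : ℝ, Z = 5000 * K₁ + 50 * G + 50 * G * K₁ + G * K₁ := ⟨_, rfl⟩
    have hZ0 : 0 ≤ Z := by rw [hZ]; positivity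
    rw [← hZ] at q2
    have eZ : 1 + 5000 * K₁ + 50 * G + 50 * G * K₁ + G * K₁ + 2 * G + K₁ = 1 + Z + 2 * G + K₁ := by
      rw [hZ]; ring
    rw [eZ]
    have w1 : t ^ 2 * V ≤ |t| * V := by
      refine mul_le_mul_of_nonneg_right ?_ hV0
      linarith
    have w2 : Z * (t ^ 2 * V) ≤ Z * (|t| * V) := mul_le_mul_of_nonneg_left w1 hZ0
    refine (abs_sub _ _).trans ?_
    refine (add_le_add (abs_add_le _ _) le_rfl).trans ?_
    refine (add_le_add (add_le_add q1 q2) q3).trans ?_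
    exact fin5 hK hG hZ0 hlam hW0.le hV0 ht0 (sq_nonneg t) w2
  have habs := abs_nonneg (kt - k0 - t * a / 2)
  have hfin : |kt - k0 - t * a / 2| * (1 / 2) ≤
      (1 + 5000 * K₁ + 50 * G + 50 * G * K₁ + G * K₁ + 2 * G + K₁) *
        (|t| * (lam * W + V) + t ^ 2 * W) :=
    (mul_le_mul_of_nonneg_left hD habs).trans hkey
  linarith

end

end Pool.Agent.N984.T3
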