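import Mathlib

/-!
# The second coefficient of a function at zero, and the rational identity of the couplings
-/

open Filter Asymptotics
open scoped Topology

namespace Pool.Agent.N984.T3

noncomputable section

/-- the second coefficient at zero -/
def Q2 (φ : ℝ → ℂ) (c : ℂ) : Prop :=
  Tendsto (fun s : ℝ => 2 * (φ 0 - φ s) / (s : ℂ) ^ 2) (𝓝[>] 0) (𝓝 c)

variable {φ ψ : ℝ → ℂ} {c d : ℂ}

lemma Q2.uniq (h : Q2 φ c) (h' : Q2 φ d) : c = d := tendsto_nhds_unique h h'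

lemma Q2.add (h : Q2 φ c) (h' : Q2 ψ d) : Q2 (fun s => φ s + ψ s) (c + d) := by
  refine (Tendsto.add h h').congr fun s => ?_
  ring

lemma Q2.const_mul (h : Q2 φ c) (w : ℂ) : Q2 (fun s => w * φ s) (w * c) := by
  refine (Tendsto.const_mul w h).congr fun s => ?_
  ring

/-- a function which agrees with a polynomial of degree two up to the fourth order -/
lemma Q2.of_bound {r K : ℝ} (hr : 0 < r) {c : ℂ}
    (h : ∀ s : ℝ, 0 < s → s < r → ‖φ s - (φ 0 - c / 2 * (s : ℂ) ^ 2)‖ ≤ K * s ^ 4) : Q2 φ c := by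
  unfold Q2
  rw [tendsto_iff_norm_sub_tendsto_zero]
  have h1 : Tendsto (fun s : ℝ => 2 * K * s ^ 2) (𝓝[>] 0) (𝓝 0) := by
    have h2 : Continuous fun s : ℝ => 2 * K * s ^ 2 := by fun_prop
    have h3 := (h2.tendsto 0).mono_left (nhdsWithin_le_nhds (s := Set.Ioi (0 : ℝ)))
    simpa using h3
  refine squeeze_zero' (Eventually.of_forall fun _ => norm_nonneg _) ?_ h1
  filter_upwards [Ioo_mem_nhdsGT hr] with s hs
  have hs0 : (s : ℂ) ≠ 0 := by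
    have := hs.1.ne'
    exact_mod_cast this
  have e : 2 * (φ 0 - φ s) / (s : ℂ) ^ 2 - c =
      -(2 / (s : ℂ) ^ 2) * (φ s - (φ 0 - c / 2 * (s : ℂ) ^ 2)) := by
    field_simp
    ring
  rw [e, norm_mul]
  have e2 : ‖-(2 / (s : ℂ) ^ 2)‖ = 2 / s ^ 2 := by
    rw [norm_neg, norm_div, norm_pow, Complex.norm_real, Real.norm_eq_abs, sq_abs]
    norm_num
  rw [e2]
  have h2 := mul_le_mul_of_nonneg_left (h s hs.1 hs.2) (by positivity : 0 ≤ 2 / s ^ 2)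
  refine h2.trans (le_of_eq ?_)
  have := hs.1.ne'
  field_simp

lemma exp_quad {k M s : ℝ} {m : ℂ} (hs : 0 ≤ s) (hs1 : s ≤ 1) (hm : ‖m‖ ≤ M * s ^ 4)
    (hM : 0 ≤ M) :
    ‖Complex.exp (-((k : ℂ) / 2) * (s : ℂ) ^ 2 - m) - (1 - (k : ℂ) / 2 * (s : ℂ) ^ 2)‖ ≤
      (M + (|k| + M) ^ 2 * Real.exp (|k| + M)) * s ^ 4 := by
  obtain ⟨z, hz⟩ : ∃ z : ℂ, z = -((k : ℂ) / 2) * (s : ℂ) ^ 2 - m := ⟨_, rfl⟩
  have e : Complex.exp (-((k : ℂ) / 2) * (s : ℂ) ^ 2 - m) - (1 - (k : ℂ) / 2 * (s : ℂ) ^ 2) =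
      (Complex.exp z - 1 - z) - m := by
    rw [← hz]
    have : (k : ℂ) / 2 * (s : ℂ) ^ 2 = -z - m := by rw [hz]; ring
    rw [this]
    ring
  rw [e]
  have hz1 : ‖z‖ ≤ (|k| + M) * s ^ 2 := by
    rw [hz]
    refine (norm_sub_le _ _).trans ?_
    have h1 : ‖-((k : ℂ) / 2) * (s : ℂ) ^ 2‖ = |k| / 2 * s ^ 2 := by
      rw [norm_mul, norm_neg, norm_div, norm_pow, Complex.norm_real, Complex.norm_real,
        Real.norm_eq_abs, Real.norm_eq_abs, sq_abs]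
      norm_num
    rw [h1]
    have h2 : M * s ^ 4 ≤ M * s ^ 2 := by
      refine mul_le_mul_of_nonneg_left ?_ hM
      have : s ^ 4 = s ^ 2 * s ^ 2 := by ring
      have h3 : s ^ 2 ≤ 1 := pow_le_one₀ hs hs1
      nlinarith [sq_nonneg s]
    have h4 : 0 ≤ |k| * s ^ 2 := by positivity
    linarith
  have h2 : ‖Complex.exp z - 1 - z‖ ≤ ‖z‖ ^ 2 * Real.exp ‖z‖ := by
    have h3 := Complex.norm_exp_sub_sum_le_norm_mul_exp z 2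
    have e3 : Complex.exp z - 1 - z = Complex.exp z - ∑ m ∈ Finset.range 2,
        z ^ m / (m.factorial : ℂ) := by
      simp [Finset.sum_range_succ]; ring
    rw [e3]
    exact h3
  have hz2 : ‖z‖ ≤ |k| + M := by
    refine hz1.trans ?_
    have h3 : s ^ 2 ≤ 1 := pow_le_one₀ hs hs1
    have h4 : 0 ≤ |k| + M := by positivity
    nlinarith
  have h5 : ‖z‖ ^ 2 ≤ (|k| + M) ^ 2 * s ^ 4 := by
    calc ‖z‖ ^ 2 ≤ ((|k| + M) * s ^ 2) ^ 2 := pow_le_pow_left₀ (norm_nonneg _) hz1 2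
      _ = _ := by ring
  refine (norm_sub_le _ _).trans ?_
  have h6 : ‖z‖ ^ 2 * Real.exp ‖z‖ ≤ (|k| + M) ^ 2 * s ^ 4 * Real.exp (|k| + M) :=
    mul_le_mul h5 (Real.exp_le_exp.2 hz2) (Real.exp_pos _).le (by positivity)
  calc _ ≤ (|k| + M) ^ 2 * s ^ 4 * Real.exp (|k| + M) + M * s ^ 4 := add_le_add (h2.trans h6) hm
    _ = _ := by ring

/-- the second coefficient of a state -/
lemma Q2.state {r k M : ℝ} (hr : 0 < r) (hr1 : r ≤ 1) (hM : 0 ≤ M) {μ : ℝ → ℂ}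
    (h : ∀ s : ℝ, 0 < s → s < r → φ s = φ 0 * Complex.exp (-((k : ℂ) / 2) * (s : ℂ) ^ 2 - μ s))
    (hμ : ∀ s : ℝ, 0 < s → s < r → ‖μ s‖ ≤ M * s ^ 4) : Q2 φ (k * φ 0) := by
  refine Q2.of_bound (K := ‖φ 0‖ * (M + (|k| + M) ^ 2 * Real.exp (|k| + M))) hr fun s hs hsr => ?_
  have h1 := exp_quad (k := k) hs.le (hsr.le.trans hr1) (hμ s hs hsr) hM
  rw [h s hs hsr]
  have e : φ 0 * Complex.exp (-((k : ℂ) / 2) * (s : ℂ) ^ 2 - μ s) -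
      (φ 0 - k * φ 0 / 2 * (s : ℂ) ^ 2) =
      φ 0 * (Complex.exp (-((k : ℂ) / 2) * (s : ℂ) ^ 2 - μ s) - (1 - (k : ℂ) / 2 * (s : ℂ) ^ 2)) := by
    ring
  rw [e, norm_mul, mul_assoc]
  exact mul_le_mul_of_nonneg_left h1 (norm_nonneg _)

/-- the second coefficient of a tangent vector -/
lemma Q2.tangent {r k M Λ a : ℝ} {γ : ℂ} (hr : 0 < r) (hr1 : r ≤ 1) (hM : 0 ≤ M) {μ ν : ℝ → ℂ}
    (h : ∀ s : ℝ, 0 < s → s < r → φ s = φ 0 * Complex.exp (-((k : ℂ) / 2) * (s : ℂ) ^ 2 - μ s))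
    (hμ : ∀ s : ℝ, 0 < s → s < r → ‖μ s‖ ≤ M * s ^ 4)
    (h0 : ψ 0 = φ 0 * γ)
    (hψ : ∀ s : ℝ, 0 < s → s < r → ψ s = φ s * (γ - (a : ℂ) / 2 * (s : ℂ) ^ 2 - ν s))
    (hν : ∀ s : ℝ, 0 < s → s < r → ‖ν s‖ ≤ Λ * s ^ 4) : Q2 ψ (φ 0 * (a + k * γ)) := by
  obtain ⟨E, hE⟩ : ∃ E : ℝ, E = M + (|k| + M) ^ 2 * Real.exp (|k| + M) := ⟨_, rfl⟩
  have hE0 : 0 ≤ E := by rw [hE]; positivity
  refine Q2.of_bound (K := ‖φ 0‖ * (E * (‖γ‖ + |a| + |Λ|) + |k| * |a| + (1 + |k|) * |Λ|)) hr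
    fun s hs hsr => ?_
  have hs1 := hsr.le.trans hr1
  have h1 := exp_quad (k := k) hs.le hs1 (hμ s hs hsr) hM
  rw [← hE] at h1
  obtain ⟨w, hw⟩ : ∃ w : ℂ, w = Complex.exp (-((k : ℂ) / 2) * (s : ℂ) ^ 2 - μ s) -
    (1 - (k : ℂ) / 2 * (s : ℂ) ^ 2) := ⟨_, rfl⟩
  rw [← hw] at h1
  have e1 : Complex.exp (-((k : ℂ) / 2) * (s : ℂ) ^ 2 - μ s) =
      w + (1 - (k : ℂ) / 2 * (s : ℂ) ^ 2) := by rw [hw]; ring
  rw [hψ s hs hsr, h s hs hsr, h0, e1]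
  have e : φ 0 * (w + (1 - (k : ℂ) / 2 * (s : ℂ) ^ 2)) * (γ - (a : ℂ) / 2 * (s : ℂ) ^ 2 - ν s) -
      (φ 0 * γ - φ 0 * (a + k * γ) / 2 * (s : ℂ) ^ 2) =
      φ 0 * (w * (γ - (a : ℂ) / 2 * (s : ℂ) ^ 2 - ν s) +
        ((k : ℂ) / 2 * ((a : ℂ) / 2) * (s : ℂ) ^ 4 - (1 - (k : ℂ) / 2 * (s : ℂ) ^ 2) * ν s)) := by
    ring
  rw [e, norm_mul]
  refine (mul_le_mul_of_nonneg_left ?_ (norm_nonneg (φ 0))).trans
    (le_of_eq (mul_assoc _ _ _).symm)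
  have hs4 : 0 ≤ s ^ 4 := by positivity
  have hs2 : s ^ 2 ≤ 1 := pow_le_one₀ hs.le hs1
  have hs41 : s ^ 4 ≤ 1 := pow_le_one₀ hs.le hs1
  have hν1 : ‖ν s‖ ≤ |Λ| * s ^ 4 := (hν s hs hsr).trans
    (mul_le_mul_of_nonneg_right (le_abs_self Λ) hs4)
  have n1 : ‖(s : ℂ)‖ = s := by
    rw [Complex.norm_real, Real.norm_eq_abs, abs_of_pos hs]
  have na : ‖(a : ℂ)‖ = |a| := by rw [Complex.norm_real, Real.norm_eq_abs]
  have nk : ‖(k : ℂ)‖ = |k| := by rw [Complex.norm_real, Real.norm_eq_abs]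
  have b1 : ‖γ - (a : ℂ) / 2 * (s : ℂ) ^ 2 - ν s‖ ≤ ‖γ‖ + |a| + |Λ| := by
    refine (norm_sub_le _ _).trans ?_
    have c1 : ‖γ - (a : ℂ) / 2 * (s : ℂ) ^ 2‖ ≤ ‖γ‖ + |a| := by
      refine (norm_sub_le _ _).trans ?_
      rw [norm_mul, norm_div, norm_pow, n1, na, Complex.norm_two]
      have : |a| / 2 * s ^ 2 ≤ |a| := by nlinarith [abs_nonneg a, sq_nonneg s]
      linarith
    have c2 : |Λ| * s ^ 4 ≤ |Λ| := by nlinarith [abs_nonneg Λ]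
    linarith
  have b2 : ‖(k : ℂ) / 2 * ((a : ℂ) / 2) * (s : ℂ) ^ 4‖ ≤ |k| * |a| * s ^ 4 := by
    rw [norm_mul, norm_mul, norm_div, norm_div, norm_pow, n1, na, nk, Complex.norm_two]
    have : 0 ≤ |k| * |a| * s ^ 4 := by positivity
    nlinarith
  have b3 : ‖1 - (k : ℂ) / 2 * (s : ℂ) ^ 2‖ ≤ 1 + |k| := by
    refine (norm_sub_le _ _).trans ?_
    rw [norm_mul, norm_div, norm_pow, n1, nk, Complex.norm_two, norm_one]
    have : |k| / 2 * s ^ 2 ≤ |k| := by nlinarith [abs_nonneg k, sq_nonneg s]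
    linarith
  refine (norm_add_le _ _).trans ?_
  have d1 : ‖w * (γ - (a : ℂ) / 2 * (s : ℂ) ^ 2 - ν s)‖ ≤ E * s ^ 4 * (‖γ‖ + |a| + |Λ|) := by
    rw [norm_mul]
    exact mul_le_mul h1 b1 (norm_nonneg _) (by positivity)
  have d2 : ‖(k : ℂ) / 2 * ((a : ℂ) / 2) * (s : ℂ) ^ 4 - (1 - (k : ℂ) / 2 * (s : ℂ) ^ 2) * ν s‖ ≤
      |k| * |a| * s ^ 4 + (1 + |k|) * (|Λ| * s ^ 4) := by
    refine (norm_sub_le _ _).trans (add_le_add b2 ?_)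
    rw [norm_mul]
    exact mul_le_mul b3 hν1 (norm_nonneg (ν s)) (by positivity)
  linarith

/-- **the rational identity of the couplings** -/
theorem rational_id {φ β χ : ℝ → ℂ} {h k kp km a : ℝ} {γ c : ℂ} (h0 : φ 0 ≠ 0)
    (hγ : β 0 = φ 0 * γ) (hc : χ 0 = φ 0 * c)
    (hp : Q2 (fun s => φ s + (h * β s + h ^ 2 * χ s)) (kp * (φ 0 + (h * β 0 + h ^ 2 * χ 0))))
    (hm : Q2 (fun s => φ s + (-h * β s + h ^ 2 * χ s)) (km * (φ 0 + (-h * β 0 + h ^ 2 * χ 0))))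
    (hβ : Q2 β (φ 0 * (a + k * γ))) :
    (kp - km : ℂ) * (1 + h ^ 2 * c) + h * γ * (kp + km) = 2 * h * (a + k * γ) := by
  have h1 := hp.add (hm.const_mul (-1))
  have h2 := hβ.const_mul (2 * h)
  have e : (fun s : ℝ => φ s + (h * β s + h ^ 2 * χ s) + -1 * (φ s + (-h * β s + h ^ 2 * χ s))) =
      fun s => 2 * h * β s := by
    funext s
    ring
  rw [e] at h1
  have h3 := h1.uniq h2
  rw [hγ, hc] at h3
  have h4 : φ 0 * ((kp - km : ℂ) * (1 + h ^ 2 * c) + h * γ * (kp + km)) =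
      φ 0 * (2 * h * (a + k * γ)) := by
    linear_combination h3
  exact mul_left_cancel₀ h0 h4

end

end Pool.Agent.N984.T3
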