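import Mathlib
import Pool.Agent.N988.MK.Step
import Pool.Agent.N984.T3.Q2

/-!
# The moments of a tangent vector
-/

open MeasureTheory Filter Metric Asymptotics Matrix
open scoped Matrix.Norms.Frobenius Topology ContDiff
open Pool.Agent.H906R3.YM Pool.Agent.W793.YM Pool.Agent.TH618.YM Pool.Agent.N984.TW
open Pool.Agent.N991.MK Pool.Agent.N984.T3

namespace Pool.Agent.N988.MK.T3

set_option linter.unusedSectionVars false

noncomputable section

variable {N n : ℕ} {G : Subgroup (UN N)} {B : Frame G n}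

/-- the properties of a tangent vector `H` at the state `F`, in the near and in the far region -/
structure Tv (B : Frame G n) (r k a lam L : ℝ) (F H : (Mat N)ˣ → ℂ) (η : (Fin n → ℂ) → ℂ) :
    Prop where
  near : ∀ x, nC x < r → H (uE B x) = F (uE B x) * (-(a / 2) * qC x - η x)
  bd : ∀ x, nC x < r → ‖η x‖ ≤ lam * nC x ^ 4
  far : ∀ (v : Fin n → ℝ) (y : G), nE v ≤ 0.51 * r → (0.95 * r) ^ 2 < nE v ^ 2 + nN y ^ 2 →
    ‖H (uE B (Complex.I • rl v) * uG y)‖ ≤
      L * Real.exp (k / 2 * (1.01 * nE v ^ 2 - 0.99 * min (nN y) r ^ 2))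

variable {r k a lam L S : ℝ} {F H : (Mat N)ˣ → ℂ} {η : (Fin n → ℂ) → ℂ} {f g : G → ℝ}

lemma Tv.one (T : Tv B r k a lam L F H η) (hr : 0 < r) : H 1 = 0 := by
  have h0 : nC (0 : Fin n → ℂ) < r := by rw [nC_zero]; exact hr
  have h1 := T.near 0 h0
  have h2 := T.bd 0 h0
  rw [nC_zero] at h2
  have h3 : η 0 = 0 := norm_le_zero_iff.1 (h2.trans (by simp))
  rw [uE_zero, h3, qC_zero] at h1
  rw [h1]
  simp

lemma Tv.phi_le (T : Tv B r k a lam L F H η) (hr1 : r ≤ 1) (hS : |a| + lam ≤ S) (hl : 0 ≤ lam)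
    {x : Fin n → ℂ} (hx : nC x < r) : ‖-((a : ℂ) / 2) * qC x - η x‖ ≤ S * nC x ^ 2 := by
  have hx0 := nC_nonneg x
  have h1 := norm_qC_le x
  have h2 := T.bd x hx
  refine (norm_sub_le _ _).trans ?_
  rw [norm_mul, norm_neg, norm_div, Complex.norm_real, Real.norm_eq_abs, Complex.norm_two]
  have h3 : |a| / 2 * ‖qC x‖ ≤ |a| * nC x ^ 2 := by
    have : 0 ≤ |a| * nC x ^ 2 := by positivity
    have := mul_le_mul_of_nonneg_left h1 (by positivity : 0 ≤ |a| / 2)
    linarith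
  have h4 : lam * nC x ^ 4 ≤ lam * nC x ^ 2 := by
    refine mul_le_mul_of_nonneg_left ?_ hl
    have e : nC x ^ 4 = nC x ^ 2 * nC x ^ 2 := by ring
    have h5 : nC x ^ 2 ≤ 1 := pow_le_one₀ hx0 (hx.le.trans hr1)
    nlinarith [sq_nonneg (nC x)]
  have h5 : (|a| + lam) * nC x ^ 2 ≤ S * nC x ^ 2 :=
    mul_le_mul_of_nonneg_right hS (sq_nonneg _)
  nlinarith

variable [CompactSpace G] [MeasurableSpace G] [BorelSpace G]

lemma Tv.g_near (T : Tv B r k a lam L F H η) (hgr : GoodR B r) (hf : CF f F) (hg : CF g H)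
    (hS : |a| + lam ≤ S) (hl : 0 ≤ lam) {z : G} (hz : nN z ≤ 0.99 * r) :
    |g z| ≤ |f z| * (1.01 * S * nN z ^ 2) := by
  have hr := hgr.pos
  have hr1 : r ≤ 1 := hgr.le.trans (by norm_num)
  obtain ⟨x, e1, e2, e3, e4, e5⟩ := hgr.near0 (y := z) hz
  have h1 := T.near x e2
  have h2 := T.phi_le hr1 hS hl e2
  have hN := nN_nonneg z
  have hx : nC x ^ 2 ≤ 1.01 * nN z ^ 2 := by
    rw [nE_re_im, e3]
    have h3 := nE_nonneg (reP x)
    have h4 : nE (reP x) ^ 2 ≤ (1.0001 * nN z) ^ 2 := pow_le_pow_left₀ h3 e5 2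
    nlinarith
  have hS0 : 0 ≤ S := by
    have := abs_nonneg a
    linarith
  rw [e1] at h1
  have h3 : ‖H (uG z)‖ = ‖F (uG z)‖ * ‖-((a : ℂ) / 2) * qC x - η x‖ := by rw [h1, norm_mul]
  rw [hg.norm_res, hf.norm_res] at h3
  rw [h3]
  refine mul_le_mul_of_nonneg_left ?_ (abs_nonneg _)
  calc _ ≤ S * nC x ^ 2 := h2
    _ ≤ S * (1.01 * nN z ^ 2) := mul_le_mul_of_nonneg_left hx hS0
    _ = _ := by ring

lemma Tv.g_far (T : Tv B r k a lam L F H η) (hgr : GoodR B r) (hk : 0 ≤ k) (hL : 0 ≤ L)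
    (hg : CF g H) {z : G} (hz : 0.95 * r < nN z) :
    |g z| ≤ L * Real.exp (-(2 / 5 * r ^ 2 * k)) := by
  have hr := hgr.pos
  have hN := nN_nonneg z
  have h1 := T.far 0 z (by rw [nE_zero]; positivity) (by
    rw [nE_zero]
    have : (0.95 * r) ^ 2 < nN z ^ 2 := pow_lt_pow_left₀ hz (by positivity) two_ne_zero
    linarith)
  rw [rl_zero', uE_zero, one_mul, hg.norm_res, nE_zero] at h1
  refine h1.trans (mul_le_mul_of_nonneg_left (Real.exp_le_exp.2 ?_) hL)
  have h2 : 0.95 * r ≤ min (nN z) r := le_min hz.le (by linarith)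
  have h3 : (0.95 * r) ^ 2 ≤ min (nN z) r ^ 2 := pow_le_pow_left₀ (by positivity) h2 2
  have h4 : k * (0.95 * r) ^ 2 ≤ k * min (nN z) r ^ 2 := mul_le_mul_of_nonneg_left h3 hk
  have h5 : 0 ≤ k * r ^ 2 := by positivity
  nlinarith

variable {hG : IsClosed (G : Set (UN N))} {μ : Measure G} [IsProbabilityMeasure μ]
  [μ.IsMulLeftInvariant] [μ.IsMulRightInvariant] [μ.IsInvInvariant]
variable {r₀ C : ℝ} {b : (Fin n → ℂ) → (Fin n → ℂ) → (Fin n → ℂ)}
variable {M Cm Cq : ℝ} {m : (Fin n → ℂ) → ℂ}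

variable (B μ) in
/-- **the moments of a tangent vector** -/
theorem moments_tv {r : ℝ} (hgr : GoodR B r) : ∃ k0 : ℝ, 1 ≤ k0 ∧
    ∀ {r₀ C : ℝ} {b : (Fin n → ℂ) → (Fin n → ℂ) → (Fin n → ℂ)} {k M Cm Cq a lam L S : ℝ}
      {f g : G → ℝ} {F H : (Mat N)ˣ → ℂ} {m η : (Fin n → ℂ) → ℂ}, k0 ≤ k →
      M * r ^ 2 ≤ k / 1000 →
      Hy B hG μ r₀ C b r k M Cm Cq f F m → F 1 = 1 → CF g H → Tv B r k a lam L F H η →
      0 ≤ lam → 0 ≤ L → |a| + lam + L ≤ S →
      ∫ z, |f z| * |g z| ∂μ ≤ S * (2 * Cm + 1) / k * ∫ z, (f z) ^ 2 ∂μ ∧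
      ∫ z, (g z) ^ 2 ∂μ ≤ S ^ 2 * (20 * Cm + 1) / k ^ 2 * ∫ z, (f z) ^ 2 ∂μ := by
  obtain ⟨c, hc, D, hlow⟩ := int_lower_pow (B := B) μ
  have hr := hgr.pos
  have hr1 : r ≤ 1 := hgr.le.trans (by norm_num)
  obtain ⟨k1, hk1, hexp⟩ := exp_beats (4 / 5 * r ^ 2) c (by positivity) hc 0 (D + 4)
  refine ⟨max k1 (16 / r ^ 2), hk1.trans (le_max_left _ _),
    fun {r₀ C b k M Cm Cq a lam L S f g F H m η} hk hM Y hF1 hg T hl hL hS => ?_⟩
  have hka : k1 ≤ k := (le_max_left _ _).trans hk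
  have hkb : 16 / r ^ 2 ≤ k := (le_max_right _ _).trans hk
  have hk1' : 1 ≤ k := hk1.trans hka
  have hk0 : 0 < k := by linarith
  obtain ⟨W, hWd⟩ : ∃ W : ℝ, W = ∫ z, (f z) ^ 2 ∂μ := ⟨_, rfl⟩
  have hW : 0 < W := by rw [hWd]; exact Y.hW
  rw [← hWd]
  have hfc : Continuous f := Y.hf.cont
  have hgc : Continuous g := hg.cont
  have hCm := Y.hCm
  have hS0 : 0 ≤ S := by have := abs_nonneg a; linarith
  have hlow' := hlow hgr hkb hM Y.hf Y.hs.nearS
  rw [hF1, norm_one, one_pow, one_mul, ← hWd] at hlow'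
  have hexp' := hexp k hka
  -- the exponentially small quantity
  have hE : Real.exp (-(2 / 5 * r ^ 2 * k)) ^ 2 ≤ W / k ^ 4 := by
    rw [← Real.exp_nat_mul, le_div_iff₀ (by positivity)]
    have e1 : ((2 : ℕ) : ℝ) * -(2 / 5 * r ^ 2 * k) = 0 - 4 / 5 * r ^ 2 * k := by push_cast; ring
    rw [e1]
    have hkD : 0 < k ^ D := by positivity
    have h1 : Real.exp (0 - 4 / 5 * r ^ 2 * k) * k ^ 4 * k ^ D ≤ W * k ^ D := by
      calc _ = Real.exp (0 - 4 / 5 * r ^ 2 * k) * k ^ (D + 4) := by ring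
        _ ≤ c := hexp'
        _ ≤ k ^ D * W := hlow'
        _ = _ := by ring
    exact le_of_mul_le_mul_right h1 hkD
  -- the bound of `f` away from the identity
  have hf2 : ∀ z : G, r / 4 < nN z → (f z) ^ 2 ≤ W / k ^ 4 := by
    intro z hz
    have h1 := Y.hi.farP 0 (by rw [nC_zero]; positivity) z hz
    rw [uE_zero, one_mul, Y.hf.norm_res, sq_abs, ← hWd] at h1
    refine h1.trans (le_of_eq ?_)
    ring
  have hg2 : ∀ z : G, r / 4 < nN z → (g z) ^ 2 ≤ S ^ 2 * (W / k ^ 4) := by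
    intro z hz
    rcases le_or_gt (nN z) (0.95 * r) with h | h
    · have h1 := T.g_near hgr Y.hf hg (S := S) (by linarith) hl (z := z) (by linarith)
      have hN := nN_nonneg z
      have h2 : 1.01 * S * nN z ^ 2 ≤ S := by
        have h3 : nN z ^ 2 ≤ (0.95 * r) ^ 2 := pow_le_pow_left₀ hN h 2
        have h4 : r ^ 2 ≤ 1 := pow_le_one₀ hr.le hr1
        have h5 : 1.01 * nN z ^ 2 ≤ 1 := by nlinarith
        nlinarith
      have h3 : |g z| ≤ |f z| * S := h1.trans (mul_le_mul_of_nonneg_left h2 (abs_nonneg _))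
      calc (g z) ^ 2 = |g z| ^ 2 := (sq_abs _).symm
        _ ≤ (|f z| * S) ^ 2 := pow_le_pow_left₀ (abs_nonneg _) h3 2
        _ = S ^ 2 * (f z) ^ 2 := by rw [mul_pow, sq_abs]; ring
        _ ≤ _ := mul_le_mul_of_nonneg_left (hf2 z hz) (sq_nonneg _)
    · have h1 := T.g_far hgr hk0.le hL hg h
      calc (g z) ^ 2 = |g z| ^ 2 := (sq_abs _).symm
        _ ≤ (L * Real.exp (-(2 / 5 * r ^ 2 * k))) ^ 2 := pow_le_pow_left₀ (abs_nonneg _) h1 2
        _ = L ^ 2 * Real.exp (-(2 / 5 * r ^ 2 * k)) ^ 2 := by ring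
        _ ≤ S ^ 2 * (W / k ^ 4) := by
            refine mul_le_mul (pow_le_pow_left₀ hL ?_ 2) hE (sq_nonneg _) (sq_nonneg _)
            have := abs_nonneg a
            linarith
  have hnear : ∀ z : G, nN z ≤ r / 4 → |g z| ≤ |f z| * (1.01 * S * nN z ^ 2) := fun z hz =>
    T.g_near hgr Y.hf hg (by linarith) hl (by linarith)
  have hmeas : MeasurableSet {z : G | nN z ≤ r / 4} := meas_near
  have hcompl : ({z : G | nN z ≤ r / 4})ᶜ = {z : G | r / 4 < nN z} := by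
    ext z; simp
  have hk4 : W / k ^ 4 ≤ W / k ^ 2 := by
    refine div_le_div_of_nonneg_left hW.le (by positivity) ?_
    exact pow_le_pow_right₀ hk1' (by norm_num)
  have hk41 : W / k ^ 4 ≤ W / k := by
    refine div_le_div_of_nonneg_left hW.le hk0 ?_
    calc k = k ^ 1 := (pow_one k).symm
      _ ≤ k ^ 4 := pow_le_pow_right₀ hk1' (by norm_num)
  have m2 := mom2 Y.hi Y.hf Y.hk
  have m4 := mom4 Y.hi Y.hf Y.hk
  rw [← hWd] at m2 m4
  constructor
  · have hint : Integrable (fun z => |f z| * |g z|) μ := intgR (hfc.abs.mul hgc.abs)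
    rw [← integral_add_compl hmeas hint, hcompl]
    have h1 : ∫ z in {z : G | nN z ≤ r / 4}, |f z| * |g z| ∂μ ≤ 1.01 * S * (Cm / k * W) := by
      have h2 : ∫ z in {z : G | nN z ≤ r / 4}, |f z| * |g z| ∂μ ≤
          ∫ z in {z : G | nN z ≤ r / 4}, 1.01 * S * ((f z) ^ 2 * nN z ^ 2) ∂μ := by
        refine setIntegral_mono_on hint.integrableOn ?_ hmeas fun z hz => ?_
        · exact (intgR (continuous_const.mul ((hfc.pow 2).mul (nN_cont.pow 2)))).integrableOn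
        · have h3 := mul_le_mul_of_nonneg_left (hnear z hz) (abs_nonneg (f z))
          refine h3.trans (le_of_eq ?_)
          rw [← mul_assoc, ← sq, sq_abs]
          ring
      refine h2.trans ?_
      rw [integral_const_mul]
      exact mul_le_mul_of_nonneg_left m2 (by positivity)
    have h2 : ∫ z in {z : G | r / 4 < nN z}, |f z| * |g z| ∂μ ≤ S * (W / k ^ 4) := by
      have h3 : ∀ z ∈ {z : G | r / 4 < nN z}, ‖|f z| * |g z|‖ ≤ S * (W / k ^ 4) := by
        intro z hz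
        rw [Real.norm_eq_abs, abs_mul, abs_abs, abs_abs]
        have q : 0 ≤ W / k ^ 4 := by positivity
        have a1 : |f z| ≤ Real.sqrt (W / k ^ 4) := Real.abs_le_sqrt (hf2 z hz)
        have a2 : |g z| ≤ S * Real.sqrt (W / k ^ 4) := by
          have h4 := Real.abs_le_sqrt (hg2 z hz)
          rwa [Real.sqrt_mul (sq_nonneg S), Real.sqrt_sq hS0] at h4
        calc |f z| * |g z| ≤ Real.sqrt (W / k ^ 4) * (S * Real.sqrt (W / k ^ 4)) :=
              mul_le_mul a1 a2 (abs_nonneg _) (Real.sqrt_nonneg _)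
          _ = S * (Real.sqrt (W / k ^ 4) * Real.sqrt (W / k ^ 4)) := by ring
          _ = _ := by rw [Real.mul_self_sqrt q]
      have h4 := norm_setIntegral_le_of_norm_le_const (μ := μ) (s := {z : G | r / 4 < nN z})
        (measure_lt_top _ _) h3
      refine (le_abs_self _).trans (h4.trans ?_)
      have h5 : μ.real {z : G | r / 4 < nN z} ≤ 1 := measureReal_le_one
      have h6 : 0 ≤ S * (W / k ^ 4) := by positivity
      nlinarith
    have h3 : S * (W / k ^ 4) ≤ S * (W / k) := mul_le_mul_of_nonneg_left hk41 hS0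
    have e : S * (2 * Cm + 1) / k * W = 2 * (S * (Cm / k * W)) + S * (W / k) := by ring
    rw [e]
    have h4 : 0 ≤ S * (Cm / k * W) := by positivity
    linarith
  · have hint : Integrable (fun z => (g z) ^ 2) μ := intgR (hgc.pow 2)
    rw [← integral_add_compl hmeas hint, hcompl]
    have h1 : ∫ z in {z : G | nN z ≤ r / 4}, (g z) ^ 2 ∂μ ≤
        2 * S ^ 2 * (10 / k * (Cm / k * W)) := by
      have h2 : ∫ z in {z : G | nN z ≤ r / 4}, (g z) ^ 2 ∂μ ≤
          ∫ z in {z : G | nN z ≤ r / 4}, 2 * S ^ 2 * ((f z) ^ 2 * nN z ^ 4) ∂μ := by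
        refine setIntegral_mono_on hint.integrableOn ?_ hmeas fun z hz => ?_
        · exact (intgR (continuous_const.mul ((hfc.pow 2).mul (nN_cont.pow 4)))).integrableOn
        · have h3 := pow_le_pow_left₀ (abs_nonneg _) (hnear z hz) 2
          rw [sq_abs, mul_pow, sq_abs] at h3
          refine h3.trans ?_
          have h4 : 0 ≤ (f z) ^ 2 * (S ^ 2 * nN z ^ 4) := by positivity
          nlinarith
      refine h2.trans ?_
      rw [integral_const_mul]
      exact mul_le_mul_of_nonneg_left m4 (by positivity)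
    have h2 : ∫ z in {z : G | r / 4 < nN z}, (g z) ^ 2 ∂μ ≤ S ^ 2 * (W / k ^ 4) := by
      have h3 : ∀ z ∈ {z : G | r / 4 < nN z}, ‖(g z) ^ 2‖ ≤ S ^ 2 * (W / k ^ 4) := by
        intro z hz
        rw [Real.norm_eq_abs, abs_of_nonneg (sq_nonneg _)]
        exact hg2 z hz
      have h4 := norm_setIntegral_le_of_norm_le_const (μ := μ) (s := {z : G | r / 4 < nN z})
        (measure_lt_top _ _) h3
      refine (le_abs_self _).trans (h4.trans ?_)
      have h5 : μ.real {z : G | r / 4 < nN z} ≤ 1 := measureReal_le_one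
      have h6 : 0 ≤ S ^ 2 * (W / k ^ 4) := by positivity
      nlinarith
    have h3 : S ^ 2 * (W / k ^ 4) ≤ S ^ 2 * (W / k ^ 2) :=
      mul_le_mul_of_nonneg_left hk4 (sq_nonneg _)
    have e : S ^ 2 * (20 * Cm + 1) / k ^ 2 * W =
        2 * S ^ 2 * (10 / k * (Cm / k * W)) + S ^ 2 * (W / k ^ 2) := by
      field_simp
      ring
    rw [e]
    linarith

end

end Pool.Agent.N988.MK.T3
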