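import Mathlib
import Pool.Agent.N984.T3.Mom
import Pool.Agent.N988.MK.M4c
import Pool.Agent.N991.MK.Tan1
import Pool.Agent.N991.MK.TwoK

/-!
# The trace of the quartic part of a perturbed state
-/

open MeasureTheory Filter Metric Asymptotics Matrix
open scoped Matrix.Norms.Frobenius Topology ContDiff
open Pool.Agent.H906R3.YM Pool.Agent.W793.YM Pool.Agent.TH618.YM Pool.Agent.N984.TW
open Pool.Agent.N991.MK Pool.Agent.N984.T3

namespace Pool.Agent.N988.MK.T3

set_option linter.unusedSectionVars false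

noncomputable section

variable {N n : ℕ} {G : Subgroup (UN N)} {B : Frame G n}
variable {r k M a lam L : ℝ} {F H : (Mat N)ˣ → ℂ} {m m' η : (Fin n → ℂ) → ℂ}

lemma _root_.Pool.Agent.N991.MK.Tg.tv (h : Tg B r k a lam L F H η) : Tv B r k a lam L F H η where
  near := h.near
  bd := h.bd
  far := h.far

/-- the odd part of the perturbed quartic remainder -/
lemma mT_diff (h : Tg B r k a lam L F H η) (hr : r ≤ 1) (ha : |a| + lam + L ≤ 1) {t : ℝ}
    (ht0 : 0 ≤ t) (ht : t ≤ 1 / 2) {x : Fin n → ℂ} (hx : nC x < r) :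
    ‖mT a t m η x - mT a (-t) m η x‖ ≤ 2 * t * lam * nC x ^ 4 + 2 * nC x ^ 6 := by
  have hn := nC_nonneg x
  have h1 := h.phT_le hr ha hx
  obtain ⟨p, hp⟩ : ∃ p : ℂ, p = phT a η x := ⟨_, rfl⟩
  rw [← hp] at h1
  have hn1 : nC x ^ 2 ≤ 1 := pow_le_one₀ hn (by linarith)
  have hz : ‖(t : ℂ) * p‖ ≤ 1 / 2 * nC x ^ 2 := by
    rw [norm_mul, Complex.norm_real, Real.norm_eq_abs, abs_of_nonneg ht0]
    exact mul_le_mul ht h1 (norm_nonneg _) (by norm_num)
  have hz1 : ‖(t : ℂ) * p‖ ≤ 1 / 2 := by linarith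
  have key : ∀ z : ℂ, ‖z‖ ≤ 1 / 2 * nC x ^ 2 →
      ‖Complex.log (1 + z) - (z - z ^ 2 / 2)‖ ≤ nC x ^ 6 := by
    intro z hz
    have hz1 : ‖z‖ ≤ 1 / 2 := by linarith
    have h2 := Complex.norm_log_sub_logTaylor_le 2 (z := z) (by linarith)
    have e : Complex.logTaylor (2 + 1) z = z - z ^ 2 / 2 := by
      simp [Complex.logTaylor_succ, Complex.logTaylor_zero]
      ring
    rw [e] at h2
    refine h2.trans ?_
    have h3 : (1 - ‖z‖)⁻¹ ≤ 2 := by
      rw [inv_le_comm₀ (by linarith) (by norm_num)]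
      linarith
    have h4 : ‖z‖ ^ (2 + 1) ≤ (1 / 2 * nC x ^ 2) ^ (2 + 1) := pow_le_pow_left₀ (norm_nonneg _) hz _
    have h5 : ‖z‖ ^ (2 + 1) * (1 - ‖z‖)⁻¹ ≤ (1 / 2 * nC x ^ 2) ^ (2 + 1) * 2 :=
      mul_le_mul h4 h3 (inv_nonneg.2 (by linarith)) (by positivity)
    have h6 : 0 ≤ nC x ^ 6 := by positivity
    have e6 : (1 / 2 * nC x ^ 2) ^ (2 + 1) * 2 = 1 / 4 * nC x ^ 6 := by ring
    rw [e6] at h5
    push_cast
    have h7 : 0 ≤ ‖z‖ ^ (2 + 1) * (1 - ‖z‖)⁻¹ :=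
      mul_nonneg (by positivity) (inv_nonneg.2 (by linarith))
    rw [div_le_iff₀ (by norm_num)]
    linarith
  have k1 := key _ hz
  have k2 := key (-((t : ℂ) * p)) (by rw [norm_neg]; exact hz)
  have e : mT a t m η x - mT a (-t) m η x =
      2 * t * η x - (Complex.log (1 + (t : ℂ) * p) - ((t : ℂ) * p - ((t : ℂ) * p) ^ 2 / 2)) +
        (Complex.log (1 + -((t : ℂ) * p)) - (-((t : ℂ) * p) - (-((t : ℂ) * p)) ^ 2 / 2)) := by
    unfold mT
    rw [← hp]
    have e1 : (1 : ℂ) + ((-t : ℝ) : ℂ) * p = 1 + -((t : ℂ) * p) := by push_cast; ring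
    rw [e1]
    have e2 : η x = -(a / 2) * qC x - p := by rw [hp]; unfold phT; ring
    rw [e2]
    push_cast
    ring
  rw [e]
  have hη : ‖2 * (t : ℂ) * η x‖ ≤ 2 * t * lam * nC x ^ 4 := by
    rw [norm_mul, norm_mul, Complex.norm_real, Real.norm_eq_abs, abs_of_nonneg ht0,
      Complex.norm_two]
    have := mul_le_mul_of_nonneg_left (h.bd x hx) (by positivity : 0 ≤ 2 * t)
    linarith
  refine (norm_add_le _ _).trans ?_
  have h8 := norm_sub_le (2 * (t : ℂ) * η x)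
    (Complex.log (1 + (t : ℂ) * p) - ((t : ℂ) * p - ((t : ℂ) * p) ^ 2 / 2))
  linarith

/-- two quartic parts -/
lemma m4_diff_le {M' C₀ C₀' D E : ℝ} (hr : 0 < r) (h : Qrt r M C₀ m (m4 m))
    (h' : Qrt r M' C₀' m' (m4 m'))
    (hd : ∀ x, nC x < r → ‖m x - m' x‖ ≤ D * nC x ^ 4 + E * nC x ^ 6) (x : Fin n → ℂ) :
    ‖m4 m x - m4 m' x‖ ≤ D * nC x ^ 4 := by
  have hx0 := nC_nonneg x
  have key : ∀ s : ℝ, 0 < s → s * nC x < r →
      ‖m4 m x - m4 m' x‖ ≤ D * nC x ^ 4 + (E + C₀ + C₀') * nC x ^ 6 * s ^ 2 := by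
    intro s hs hsr
    have h1 : nC ((s : ℂ) • x) < r := by
      rw [nC_smul, Complex.norm_real, Real.norm_eq_abs, abs_of_pos hs]
      exact hsr
    have h2 := h.near _ h1
    have h3 := h'.near _ h1
    have h4 := hd _ h1
    rw [h.hom] at h2
    rw [h'.hom] at h3
    rw [nC_smul, Complex.norm_real, Real.norm_eq_abs, abs_of_pos hs] at h2 h3 h4
    have e : (s : ℂ) ^ 4 * (m4 m x - m4 m' x) =
        -(m ((s : ℂ) • x) - (s : ℂ) ^ 4 * m4 m x) + (m ((s : ℂ) • x) - m' ((s : ℂ) • x)) +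
        (m' ((s : ℂ) • x) - (s : ℂ) ^ 4 * m4 m' x) := by ring
    have h5 : ‖(s : ℂ) ^ 4 * (m4 m x - m4 m' x)‖ ≤ C₀ * (s * nC x) ^ 6 +
        (D * (s * nC x) ^ 4 + E * (s * nC x) ^ 6) + C₀' * (s * nC x) ^ 6 := by
      rw [e]
      refine (norm_add_le _ _).trans (add_le_add ((norm_add_le _ _).trans (add_le_add ?_ h4)) h3)
      rw [norm_neg]
      exact h2
    rw [norm_mul, norm_pow, Complex.norm_real, Real.norm_eq_abs, abs_of_pos hs] at h5
    refine le_of_mul_le_mul_left (a := s ^ 4) (h5.trans (le_of_eq ?_)) (by positivity)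
    ring
  have hlim : Tendsto (fun s : ℝ => D * nC x ^ 4 + (E + C₀ + C₀') * nC x ^ 6 * s ^ 2) (𝓝[>] 0)
      (𝓝 (D * nC x ^ 4)) := by
    have h2 : Continuous fun s : ℝ => D * nC x ^ 4 + (E + C₀ + C₀') * nC x ^ 6 * s ^ 2 := by
      fun_prop
    have h3 := (h2.tendsto 0).mono_left (nhdsWithin_le_nhds (s := Set.Ioi (0 : ℝ)))
    simpa using h3
  refine ge_of_tendsto hlim ?_
  have hp : 0 < r / (nC x + 1) := by positivity
  filter_upwards [Ioo_mem_nhdsGT hp] with s hs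
  refine key s hs.1 ?_
  have h1 := hs.2
  rw [lt_div_iff₀ (by positivity)] at h1
  have := hs.1
  nlinarith

/-- the trace of the quartic part is Lipschitz -/
lemma qb_diff_le {M' C₀ C₀' D E : ℝ} (hr : 0 < r) (hn : 0 < n) (hD : 0 ≤ D)
    (h : Qrt r M C₀ m (m4 m)) (h' : Qrt r M' C₀' m' (m4 m'))
    (hd : ∀ x, nC x < r → ‖m x - m' x‖ ≤ D * nC x ^ 4 + E * nC x ^ 6) :
    |qb n m - qb n m'| ≤ 3 * n * D := by
  have hm := m4_diff_le hr h h' hd
  have hn' : (0 : ℝ) < n := by exact_mod_cast hn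
  have hT : ∀ b c : Fin n, |(T4 m (Pi.single b 1) (Pi.single c 1)).re -
      (T4 m' (Pi.single b 1) (Pi.single c 1)).re| ≤ 36 * D := by
    intro b c
    rw [← Complex.sub_re]
    refine (Complex.abs_re_le_norm _).trans ?_
    have e : T4 m (Pi.single b 1) (Pi.single c 1) - T4 m' (Pi.single b 1) (Pi.single c 1) =
        (m4 m (Pi.single b 1 + Pi.single c 1) - m4 m' (Pi.single b 1 + Pi.single c 1)) +
        (m4 m (Pi.single b 1 - Pi.single c 1) - m4 m' (Pi.single b 1 - Pi.single c 1)) -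
        2 * (m4 m (Pi.single b 1) - m4 m' (Pi.single b 1)) -
        2 * (m4 m (Pi.single c 1) - m4 m' (Pi.single c 1)) := by
      unfold T4
      ring
    rw [e]
    have b1 : ∀ w : Fin n → ℂ, nC w ≤ 2 → ‖m4 m w - m4 m' w‖ ≤ 16 * D := by
      intro w hw
      refine (hm w).trans ?_
      have := pow_le_pow_left₀ (nC_nonneg w) hw 4
      nlinarith
    have b2 : ∀ w : Fin n → ℂ, nC w ≤ 1 → ‖m4 m w - m4 m' w‖ ≤ D := by
      intro w hw
      refine (hm w).trans ?_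
      have := pow_le_pow_left₀ (nC_nonneg w) hw 4
      nlinarith
    have s1 : ∀ d : Fin n, nC (Pi.single d (1 : ℂ)) = 1 := fun d => nC_single d
    have c1 := b1 (Pi.single b 1 + Pi.single c 1)
      ((nC_add_le _ _).trans (by rw [s1, s1]; norm_num))
    have c2 := b1 (Pi.single b 1 - Pi.single c 1)
      ((nC_sub_le _ _).trans (by rw [s1, s1]; norm_num))
    have c3 := b2 (Pi.single b 1) (by rw [s1])
    have c4 := b2 (Pi.single c 1) (by rw [s1])
    have n3 : ‖2 * (m4 m (Pi.single b 1) - m4 m' (Pi.single b 1))‖ =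
      2 * ‖m4 m (Pi.single b 1) - m4 m' (Pi.single b 1)‖ := by rw [norm_mul, Complex.norm_two]
    have n4 : ‖2 * (m4 m (Pi.single c 1) - m4 m' (Pi.single c 1))‖ =
      2 * ‖m4 m (Pi.single c 1) - m4 m' (Pi.single c 1)‖ := by rw [norm_mul, Complex.norm_two]
    refine (norm_sub_le _ _).trans ?_
    rw [n4]
    refine (add_le_add (norm_sub_le _ _) le_rfl).trans ?_
    rw [n3]
    have := norm_add_le (m4 m (Pi.single b 1 + Pi.single c 1) - m4 m' (Pi.single b 1 + Pi.single c 1))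
      (m4 m (Pi.single b 1 - Pi.single c 1) - m4 m' (Pi.single b 1 - Pi.single c 1))
    linarith
  unfold qb
  rw [← mul_sub, ← Finset.sum_sub_distrib]
  simp only [← Finset.sum_sub_distrib]
  have h2 : |∑ b : Fin n, ∑ c : Fin n, ((T4 m (Pi.single b 1) (Pi.single c 1)).re -
      (T4 m' (Pi.single b 1) (Pi.single c 1)).re)| ≤ 36 * D * n ^ 2 := by
    calc _ ≤ ∑ _b : Fin n, ∑ _c : Fin n, 36 * D := by
          refine (Finset.abs_sum_le_sum_abs _ _).trans (Finset.sum_le_sum fun b _ => ?_)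
          exact (Finset.abs_sum_le_sum_abs _ _).trans (Finset.sum_le_sum fun c _ => hT b c)
      _ = _ := by
          simp only [Finset.sum_const, Finset.card_univ, Fintype.card_fin, nsmul_eq_mul]
          ring
  rw [abs_mul, abs_of_pos (by positivity)]
  calc 1 / (12 * (n : ℝ)) * _ ≤ 1 / (12 * n) * (36 * D * n ^ 2) :=
        mul_le_mul_of_nonneg_left h2 (by positivity)
    _ = _ := by field_simp; ring

end

end Pool.Agent.N988.MK.T3
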