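import Mathlib
import Pool.Agent.N984.T3.Arith
import Pool.Agent.N984.T3.Q2
import Pool.Agent.N984.T3.Qd
import Pool.Agent.N988.MK.Tan2

/-!
# The sharp law of the coupling of a tangent vector
-/

open MeasureTheory Filter Metric Asymptotics Matrix
open scoped Matrix.Norms.Frobenius Topology ContDiff
open Pool.Agent.H906R3.YM Pool.Agent.W793.YM Pool.Agent.TH618.YM Pool.Agent.N984.TW
open Pool.Agent.N991.MK Pool.Agent.N984.T3

namespace Pool.Agent.N988.MK.T3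

set_option linter.unusedSectionVars false

noncomputable section

variable {N n : ℕ} {G : Subgroup (UN N)} {B : Frame G n} {hG : IsClosed (G : Set (UN N))}
variable [CompactSpace G] [MeasurableSpace G] [BorelSpace G] {μ : Measure G}
  [IsProbabilityMeasure μ] [μ.IsMulLeftInvariant] [μ.IsMulRightInvariant] [μ.IsInvInvariant]
variable {r k M a lam L cA : ℝ} {F H : (Mat N)ˣ → ℂ} {m η : (Fin n → ℂ) → ℂ} {f g : G → ℝ}

/-! ## the convolution square of a perturbation -/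

lemma convC_cont {P Q : (Mat N)ˣ → ℂ} (hP : Hol P) (hQ : Hol Q) (u : (Mat N)ˣ) :
    Continuous fun z : G => P (uG z) * Q ((uG z)⁻¹ * u) := by
  have h1 : Continuous fun z : G => P (uG z) := hP.contG
  have h2 : Continuous fun z : G => Q ((uG z)⁻¹ * u) := by
    obtain ⟨Ψ, b1, b2⟩ := hQ
    have e : (fun z : G => Q ((uG z)⁻¹ * u)) =
        fun z : G => Ψ (mt z⁻¹ * (u : Mat N), ((u⁻¹ : (Mat N)ˣ) : Mat N) * mt z) := by
      funext z
      rw [b2]
      rfl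
    rw [e]
    exact b1.continuous.comp (((mt_inv_cont).mul continuous_const).prodMk
      (continuous_const.mul mt_cont))
  exact h1.mul h2

lemma convC_integrable {P Q : (Mat N)ˣ → ℂ} (hP : Hol P) (hQ : Hol Q) (u : (Mat N)ˣ) :
    Integrable (fun z : G => P (uG z) * Q ((uG z)⁻¹ * u)) μ :=
  (convC_cont hP hQ u).integrable_of_hasCompactSupport (HasCompactSupport.of_compactSpace _)

lemma convC_expand (hF : Hol F) (hH : Hol H) (t : ℝ) (u : (Mat N)ˣ) :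
    convC μ (fun u => F u + t * H u) (fun u => F u + t * H u) u =
      convC μ F F u + (t * (convC μ H F u + convC μ F H u) + t ^ 2 * convC μ H H u) := by
  have e : convC μ (fun u => F u + t * H u) (fun u => F u + t * H u) u =
      ∫ z : G, (F (uG z) * F ((uG z)⁻¹ * u) + ((t : ℂ) * (H (uG z) * F ((uG z)⁻¹ * u) +
        F (uG z) * H ((uG z)⁻¹ * u)) + (t : ℂ) ^ 2 * (H (uG z) * H ((uG z)⁻¹ * u)))) ∂μ := by
    unfold convC
    refine integral_congr_ae (Eventually.of_forall fun z => ?_)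
    beta_reduce
    ring
  rw [e]
  have i1 := convC_integrable (μ := μ) hF hF u
  have i2 := convC_integrable (μ := μ) hH hF u
  have i3 := convC_integrable (μ := μ) hF hH u
  have i4 := convC_integrable (μ := μ) hH hH u
  have i5 : Integrable (fun z : G => H (uG z) * F ((uG z)⁻¹ * u) +
      F (uG z) * H ((uG z)⁻¹ * u)) μ := i2.add i3
  have i6 : Integrable (fun z : G => (t : ℂ) * (H (uG z) * F ((uG z)⁻¹ * u) +
      F (uG z) * H ((uG z)⁻¹ * u))) μ := i5.const_mul _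
  have i7 : Integrable (fun z : G => (t : ℂ) ^ 2 * (H (uG z) * H ((uG z)⁻¹ * u))) μ :=
    i4.const_mul _
  have i8 : Integrable (fun z : G => (t : ℂ) * (H (uG z) * F ((uG z)⁻¹ * u) +
      F (uG z) * H ((uG z)⁻¹ * u)) + (t : ℂ) ^ 2 * (H (uG z) * H ((uG z)⁻¹ * u))) μ := i6.add i7
  rw [integral_add i1 i8, integral_add i6 i7, integral_const_mul, integral_const_mul,
    integral_add i2 i3]
  rfl

lemma convC_one (hf : CF f F) (hg : CF g H) : convC μ F H 1 = ((∫ z : G, f z * g z ∂μ : ℝ) : ℂ) := by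
  unfold convC
  rw [← integral_complex_ofReal]
  refine integral_congr_ae (Eventually.of_forall fun z => ?_)
  beta_reduce
  rw [mul_one, hg.sym, hf.res, hg.res]
  push_cast
  ring

/-! ## the second coefficients along a ray -/

/-- the perturbation at parameter `t` along a ray -/
def pt (φ β χ : ℝ → ℂ) (t : ℝ) (s : ℝ) : ℂ := φ s + (t * β s + t ^ 2 * χ s)

/-- interpolation of the second coefficients -/
theorem interp {φ β χ : ℝ → ℂ} {t k0 kp km kt : ℝ}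
    (h0 : Q2 φ (k0 * φ 0)) (hp : Q2 (pt φ β χ (1 / 100)) (kp * pt φ β χ (1 / 100) 0))
    (hm : Q2 (pt φ β χ (-(1 / 100))) (km * pt φ β χ (-(1 / 100)) 0))
    (ht : Q2 (pt φ β χ t) (kt * pt φ β χ t 0)) :
    (kt : ℂ) * pt φ β χ t 0 = (1 - (100 * t) ^ 2) * (k0 * φ 0) +
      (((100 * t) ^ 2 + 100 * t) / 2 * (kp * pt φ β χ (1 / 100) 0) +
      ((100 * t) ^ 2 - 100 * t) / 2 * (km * pt φ β χ (-(1 / 100)) 0)) := by
  have h1 := (h0.const_mul (1 - (100 * (t : ℂ)) ^ 2)).add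
    ((hp.const_mul (((100 * (t : ℂ)) ^ 2 + 100 * t) / 2)).add
      (hm.const_mul (((100 * (t : ℂ)) ^ 2 - 100 * t) / 2)))
  have e : (fun s => (1 - (100 * (t : ℂ)) ^ 2) * φ s +
      (((100 * (t : ℂ)) ^ 2 + 100 * t) / 2 * pt φ β χ (1 / 100) s +
      ((100 * (t : ℂ)) ^ 2 - 100 * t) / 2 * pt φ β χ (-(1 / 100)) s)) = pt φ β χ t := by
    funext s
    unfold pt
    push_cast
    ring
  rw [e] at h1
  exact ht.uniq h1

/-- the point on the ray -/
def ray (n : ℕ) (hn : 0 < n) (s : ℝ) : Fin n → ℂ := (s : ℂ) • Pi.single ⟨0, hn⟩ 1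

lemma ray_zero (hn : 0 < n) : ray n hn 0 = 0 := by
  unfold ray
  simp

lemma nC_ray (hn : 0 < n) {s : ℝ} (hs : 0 ≤ s) : nC (ray n hn s) = s := by
  unfold ray
  rw [nC_smul, nC_single, Complex.norm_real, Real.norm_eq_abs, abs_of_nonneg hs, mul_one]

lemma qC_ray (hn : 0 < n) (s : ℝ) : qC (ray n hn s) = (s : ℂ) ^ 2 := by
  unfold ray qC
  rw [Finset.sum_eq_single ⟨0, hn⟩]
  · simp
  · intro b _ hb
    simp [Pi.single_eq_of_ne hb]
  · intro h
    exact absurd (Finset.mem_univ _) h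

/-- the values on the ray -/
def onRay (B : Frame G n) (hn : 0 < n) (F : (Mat N)ˣ → ℂ) (s : ℝ) : ℂ := F (uE B (ray n hn s))

lemma onRay_zero (hn : 0 < n) (F : (Mat N)ˣ → ℂ) : onRay B hn F 0 = F 1 := by
  unfold onRay
  rw [ray_zero, uE_zero]

lemma St.q2 {M : ℝ} {F : (Mat N)ˣ → ℂ} {m : (Fin n → ℂ) → ℂ} (hs : St B r k M F m) (hr : 0 < r)
    (hr1 : r ≤ 1) (hn : 0 < n) : Q2 (onRay B hn F) (k * onRay B hn F 0) := by
  refine Q2.state (M := |M|) (μ := fun s => m (ray n hn s)) hr hr1 (abs_nonneg _)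
    (fun s h1 h2 => ?_) fun s h1 h2 => ?_
  · rw [onRay_zero]
    unfold onRay
    rw [hs.eq _ (by rw [nC_ray hn h1.le]; exact h2), qC_ray]
  · have := hs.bd (ray n hn s) (by rw [nC_ray hn h1.le]; exact h2)
    rw [nC_ray hn h1.le] at this
    exact this.trans (mul_le_mul_of_nonneg_right (le_abs_self _) (by positivity))

lemma onRay_pt (hF : Hol F) (hH : Hol H) (hn : 0 < n) (t : ℝ) :
    onRay B hn (convC μ (fun u => F u + t * H u) (fun u => F u + t * H u)) =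
      pt (onRay B hn (convC μ F F)) (onRay B hn fun u => convC μ H F u + convC μ F H u)
        (onRay B hn (convC μ H H)) t := by
  funext s
  unfold onRay pt
  rw [convC_expand hF hH]

/-- the identities between the couplings -/
theorem sharp_id (hn : 0 < n) (hr : 0 < r) (hr1 : r ≤ 1) (hf : CF f F) (hg : CF g H)
    (hW : 0 < ∫ z, (f z) ^ 2 ∂μ) {k0 kp km M0 Mp Mm : ℝ} {m0 mp mm : (Fin n → ℂ) → ℂ}
    (s0 : St B r k0 M0 (convC μ F F) m0)
    (sp : St B r kp Mp (convC μ (fun u => F u + ((1 / 100 : ℝ) : ℂ) * H u)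
      (fun u => F u + ((1 / 100 : ℝ) : ℂ) * H u)) mp)
    (sm : St B r km Mm (convC μ (fun u => F u + ((-(1 / 100) : ℝ) : ℂ) * H u)
      (fun u => F u + ((-(1 / 100) : ℝ) : ℂ) * H u)) mm) :
    (∀ {t kt Mt : ℝ} {mt : (Fin n → ℂ) → ℂ},
      St B r kt Mt (convC μ (fun u => F u + (t : ℂ) * H u) (fun u => F u + (t : ℂ) * H u)) mt →
      kt * (1 + (2 * ∫ z, f z * g z ∂μ) / (∫ z, (f z) ^ 2 ∂μ) * t +
        (∫ z, (g z) ^ 2 ∂μ) / (∫ z, (f z) ^ 2 ∂μ) * t ^ 2) =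
      (1 - (100 * t) ^ 2) * k0 +
      ((100 * t) ^ 2 + 100 * t) / 2 * (kp * (1 + (2 * ∫ z, f z * g z ∂μ) /
        (∫ z, (f z) ^ 2 ∂μ) * (1 / 100) +
        (∫ z, (g z) ^ 2 ∂μ) / (∫ z, (f z) ^ 2 ∂μ) * (1 / 100) ^ 2)) +
      ((100 * t) ^ 2 - 100 * t) / 2 * (km * (1 - (2 * ∫ z, f z * g z ∂μ) /
        (∫ z, (f z) ^ 2 ∂μ) * (1 / 100) +
        (∫ z, (g z) ^ 2 ∂μ) / (∫ z, (f z) ^ 2 ∂μ) * (1 / 100) ^ 2))) ∧
    (∀ {a1 Λ : ℝ} {γ : ℂ} {η' : (Fin n → ℂ) → ℂ},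
      (∀ x, nC x < r → convC μ H F (uE B x) + convC μ F H (uE B x) =
        convC μ F F (uE B x) * (γ - (a1 : ℂ) / 2 * qC x - η' x)) →
      (∀ x, nC x < r → ‖η' x‖ ≤ Λ * nC x ^ 4) →
      γ = (((2 * ∫ z, f z * g z ∂μ) / (∫ z, (f z) ^ 2 ∂μ) : ℝ) : ℂ) ∧
      a1 = 50 * (kp - km) * (1 + (1 / 100) ^ 2 * ((∫ z, (g z) ^ 2 ∂μ) / (∫ z, (f z) ^ 2 ∂μ))) +
        ((2 * ∫ z, f z * g z ∂μ) / (∫ z, (f z) ^ 2 ∂μ)) / 2 * (kp + km - 2 * k0)) := by
  obtain ⟨W, hWd⟩ : ∃ W : ℝ, W = ∫ z, (f z) ^ 2 ∂μ := ⟨_, rfl⟩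
  obtain ⟨P, hPd⟩ : ∃ P : ℝ, P = ∫ z, f z * g z ∂μ := ⟨_, rfl⟩
  obtain ⟨R, hRd⟩ : ∃ R : ℝ, R = ∫ z, (g z) ^ 2 ∂μ := ⟨_, rfl⟩
  rw [← hWd] at hW
  rw [← hWd, ← hPd, ← hRd]
  have hWne : W ≠ 0 := hW.ne'
  have hWc : (W : ℂ) ≠ 0 := Complex.ofReal_ne_zero.2 hWne
  have c1 : convC μ F F 1 = (W : ℂ) := by
    rw [convC_one hf hf, hWd]
    congr 1
    refine integral_congr_ae (Eventually.of_forall fun z => ?_)
    beta_reduce
    ring
  have c2 : convC μ F H 1 = (P : ℂ) := by rw [convC_one hf hg, hPd]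
  have c3 : convC μ H F 1 = (P : ℂ) := by
    rw [convC_one hg hf, hPd]
    congr 1
    refine integral_congr_ae (Eventually.of_forall fun z => ?_)
    beta_reduce
    ring
  have c4 : convC μ H H 1 = (R : ℂ) := by
    rw [convC_one hg hg, hRd]
    congr 1
    refine integral_congr_ae (Eventually.of_forall fun z => ?_)
    beta_reduce
    ring
  have q0 := St.q2 s0 hr hr1 hn
  have qp := St.q2 sp hr hr1 hn
  have qm := St.q2 sm hr hr1 hn
  rw [onRay_pt hf.hol hg.hol] at qp qm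
  obtain ⟨φ, hφ⟩ : ∃ φ : ℝ → ℂ, φ = onRay B hn (convC μ F F) := ⟨_, rfl⟩
  obtain ⟨β, hβ⟩ : ∃ β : ℝ → ℂ, β = onRay B hn fun u => convC μ H F u + convC μ F H u := ⟨_, rfl⟩
  obtain ⟨χ, hχ⟩ : ∃ χ : ℝ → ℂ, χ = onRay B hn (convC μ H H) := ⟨_, rfl⟩
  have v1 : φ 0 = (W : ℂ) := by rw [hφ, onRay_zero, c1]
  have v2 : β 0 = 2 * (P : ℂ) := by rw [hβ, onRay_zero, c2, c3]; ring
  have v3 : χ 0 = (R : ℂ) := by rw [hχ, onRay_zero, c4]
  rw [← hφ] at q0
  rw [← hφ, ← hβ, ← hχ] at qp qm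
  constructor
  · intro t kt Mt mt st
    have qt := St.q2 st hr hr1 hn
    rw [onRay_pt hf.hol hg.hol, ← hφ, ← hβ, ← hχ] at qt
    have h1 := interp q0 qp qm qt
    unfold pt at h1
    rw [v1, v2, v3] at h1
    have h2 : kt * (W + (t * (2 * P) + t ^ 2 * R)) = (1 - (100 * t) ^ 2) * (k0 * W) +
        (((100 * t) ^ 2 + 100 * t) / 2 * (kp * (W + (1 / 100 * (2 * P) + (1 / 100) ^ 2 * R))) +
        ((100 * t) ^ 2 - 100 * t) / 2 *
          (km * (W + (-(1 / 100) * (2 * P) + (-(1 / 100)) ^ 2 * R)))) := by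
      have h3 : ((kt * (W + (t * (2 * P) + t ^ 2 * R)) : ℝ) : ℂ) =
          (((1 - (100 * t) ^ 2) * (k0 * W) +
          (((100 * t) ^ 2 + 100 * t) / 2 * (kp * (W + (1 / 100 * (2 * P) + (1 / 100) ^ 2 * R))) +
          ((100 * t) ^ 2 - 100 * t) / 2 *
            (km * (W + (-(1 / 100) * (2 * P) + (-(1 / 100)) ^ 2 * R)))) : ℝ) : ℂ) := by
        push_cast at h1 ⊢
        exact h1
      exact_mod_cast h3
    have h4 : W * (kt * (1 + 2 * P / W * t + R / W * t ^ 2)) =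
        W * ((1 - (100 * t) ^ 2) * k0 +
        ((100 * t) ^ 2 + 100 * t) / 2 * (kp * (1 + 2 * P / W * (1 / 100) + R / W * (1 / 100) ^ 2)) +
        ((100 * t) ^ 2 - 100 * t) / 2 *
          (km * (1 - 2 * P / W * (1 / 100) + R / W * (1 / 100) ^ 2))) := by
      have hp : W * (2 * P / W) = 2 * P := by field_simp
      have hq : W * (R / W) = R := by field_simp
      linear_combination h2 + (kt * t) * hp + kt * t ^ 2 * hq -
        ((100 * t) ^ 2 + 100 * t) / 2 * kp * (1 / 100 * hp + (1 / 100) ^ 2 * hq) -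
        ((100 * t) ^ 2 - 100 * t) / 2 * km * (-(1 / 100) * hp + (1 / 100) ^ 2 * hq)
    exact mul_left_cancel₀ hWne h4
  · intro a1 Λ γ η' hne hbd
    have hγ : β 0 = φ 0 * γ := by
      have h1 := hne 0 (by rw [nC_zero]; exact hr)
      have h2 := hbd 0 (by rw [nC_zero]; exact hr)
      rw [nC_zero] at h2
      have h3 : η' 0 = 0 := norm_le_zero_iff.1 (h2.trans (by simp))
      rw [uE_zero, h3, qC_zero, mul_zero, sub_zero, sub_zero] at h1
      rw [hφ, hβ, onRay_zero, onRay_zero]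
      exact h1
    have hγ' : γ = ((2 * P / W : ℝ) : ℂ) := by
      rw [v1, v2] at hγ
      push_cast
      field_simp
      linear_combination -hγ
    refine ⟨hγ', ?_⟩
    have hβ2 : Q2 β (φ 0 * (a1 + k0 * γ)) := by
      rw [hβ, hφ]
      refine Q2.tangent (M := |M0|) (Λ := Λ) (μ := fun s => m0 (ray n hn s))
        (ν := fun s => η' (ray n hn s)) hr hr1 (abs_nonneg _)
        (fun s h1 h2 => ?_) (fun s h1 h2 => ?_) ?_ (fun s h1 h2 => ?_) fun s h1 h2 => ?_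
      · rw [onRay_zero]
        unfold onRay
        rw [s0.eq _ (by rw [nC_ray hn h1.le]; exact h2), qC_ray]
      · have := s0.bd (ray n hn s) (by rw [nC_ray hn h1.le]; exact h2)
        rw [nC_ray hn h1.le] at this
        exact this.trans (mul_le_mul_of_nonneg_right (le_abs_self _) (by positivity))
      · rw [← hφ, ← hβ]; exact hγ
      · have := hne (ray n hn s) (by rw [nC_ray hn h1.le]; exact h2)
        rw [qC_ray] at this
        exact this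
      · have := hbd (ray n hn s) (by rw [nC_ray hn h1.le]; exact h2)
        rwa [nC_ray hn h1.le] at this
    have h5 := qp.add (qm.const_mul (-1))
    have e : (fun s : ℝ => pt φ β χ (1 / 100) s + -1 * pt φ β χ (-(1 / 100)) s) =
        fun s => (1 / 50 : ℂ) * β s := by
      funext s
      unfold pt
      push_cast
      ring
    rw [e] at h5
    have h6 := h5.uniq (hβ2.const_mul (1 / 50))
    unfold pt at h6
    rw [v1, v2, v3, hγ'] at h6
    have h7 : kp * (W + (1 / 100 * (2 * P) + (1 / 100) ^ 2 * R)) +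
        -1 * (km * (W + (-(1 / 100) * (2 * P) + (-(1 / 100)) ^ 2 * R))) =
        1 / 50 * (W * (a1 + k0 * (2 * P / W))) := by
      have h8 : ((kp * (W + (1 / 100 * (2 * P) + (1 / 100) ^ 2 * R)) +
          -1 * (km * (W + (-(1 / 100) * (2 * P) + (-(1 / 100)) ^ 2 * R))) : ℝ) : ℂ) =
          ((1 / 50 * (W * (a1 + k0 * (2 * P / W))) : ℝ) : ℂ) := by
        push_cast at h6 ⊢
        exact h6
      exact_mod_cast h8
    have h9 : W * a1 = W * (50 * (kp - km) * (1 + (1 / 100) ^ 2 * (R / W)) +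
        2 * P / W / 2 * (kp + km - 2 * k0)) := by
      field_simp at h7 ⊢
      linear_combination (-1) * h7
    exact mul_left_cancel₀ hWne h9

/-- the new coupling and its law, without the law -/
lemma exists_conv_st (hI : IsoG B) (hn : 0 < n) {r₀ C Cm Cq : ℝ}
    {b : (Fin n → ℂ) → (Fin n → ℂ) → (Fin n → ℂ)} (Y : Hy B hG μ r₀ C b r k M Cm Cq f F m) :
    ∃ (k' M' : ℝ) (m' : (Fin n → ℂ) → ℂ), St B r k' M' (convC μ F F) m' := by
  obtain ⟨δ, κ, d1, d2, d3, d4⟩ := Y.exists_delta hI hn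
  exact ⟨_, _, _, Hy.new_state Y d4⟩

lemma law_shift {K M k A X : ℝ} (hK : 0 ≤ K) (hM : 0 ≤ M) (hk : 1 ≤ k) (hA : k / 2 ≤ A)
    (h : |X| ≤ K * (1 + (M + 1)) / A ^ 2) : |X| ≤ 8 * K * (1 + M) / k ^ 2 := by
  refine h.trans ?_
  have hk0 : 0 < k := by linarith
  have hA0 : 0 < A := by linarith
  rw [div_le_div_iff₀ (by positivity) (by positivity)]
  have h1 : k ^ 2 ≤ 4 * A ^ 2 := by
    have := pow_le_pow_left₀ (by positivity) hA 2
    have e : (k / 2) ^ 2 = k ^ 2 / 4 := by ring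
    linarith
  calc K * (1 + (M + 1)) * k ^ 2 ≤ K * (2 * (1 + M)) * (4 * A ^ 2) := by
        refine mul_le_mul (mul_le_mul_of_nonneg_left (by linarith) hK) h1 (by positivity)
          (by positivity)
    _ = _ := by ring

variable (μ) in
/-- **the sharp law of the coupling**: tangent vectors and finite perturbations -/
theorem sharp_line (hG : IsClosed (G : Set (UN N))) (hI : IsoG B) (hn : 0 < n)
    (hcA : ∀ x : Fin n → ℝ, ∑ a, ‖LX B x * B.X a - B.X a * LX B x‖ ^ 2 = cA * nE x ^ 2)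
    (h6 : H6 B) (hcas : CasPair B cA) :
    ∃ r₁ ε₁ : ℝ, 0 < r₁ ∧ r₁ ≤ 1 ∧ 0 < ε₁ ∧ ε₁ ≤ 1 / 2000 ∧ ∀ r : ℝ, 0 < r → r ≤ r₁ →
      GoodR B r ∧ ∃ k₀ K : ℝ, 1 ≤ k₀ ∧ 0 ≤ K ∧ ∀ {k M a lam L : ℝ} {f g : G → ℝ}
        {F H : (Mat N)ˣ → ℂ} {m η : (Fin n → ℂ) → ℂ}, k₀ ≤ k → NR B r ε₁ k M f F m →
        TubeS B r k F → CF g H → Tg B r k a lam L F H η → |a| + lam + L ≤ 1 →
        ∀ {k0 M0 : ℝ} {m0 : (Fin n → ℂ) → ℂ}, St B r k0 M0 (convC μ F F) m0 →
        (∀ {a1 Λ : ℝ} {γ : ℂ} {η' : (Fin n → ℂ) → ℂ},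
          (∀ x, nC x < r → convC μ H F (uE B x) + convC μ F H (uE B x) =
            convC μ F F (uE B x) * (γ - (a1 : ℂ) / 2 * qC x - η' x)) →
          (∀ x, nC x < r → ‖η' x‖ ≤ Λ * nC x ^ 4) →
          ‖γ‖ ≤ K / k ∧ |a1 - a / 2| ≤ K * (lam / k + (1 + M) / k ^ 2)) ∧
        (∀ {t kt Mt : ℝ} {mt : (Fin n → ℂ) → ℂ}, |t| ≤ 1 / 100 →
          St B r kt Mt (convC μ (fun u => F u + (t : ℂ) * H u)
            (fun u => F u + (t : ℂ) * H u)) mt →
          |kt - k0 - t * a / 2| ≤ K * (|t| * (lam / k + (1 + M) / k ^ 2) + t ^ 2 / k)) := by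
  obtain ⟨r₀, C, b, Cm, Cq, rA, εA, hrA, hrA1, hεA, hεA2, hCm, hCq, hCqr, hHy⟩ :=
    exists_HyN B hG μ
  obtain ⟨rB, εB, hrB, hεB, hεB2, hlaw⟩ := two_KN μ hG hI hn hcA h6 hcas
  obtain ⟨εm, hεm⟩ : ∃ εm : ℝ, εm = min εA εB := ⟨_, rfl⟩
  have hεm0 : 0 < εm := by rw [hεm]; exact lt_min hεA hεB
  have hεm1 : εm ≤ εA := by rw [hεm]; exact min_le_left _ _
  have hεm2 : εm ≤ εB := by rw [hεm]; exact min_le_right _ _
  refine ⟨min rA rB, εm / 4, lt_min hrA hrB, (min_le_left _ _).trans hrA1, by linarith,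
    by linarith, fun r hr hrr => ?_⟩
  have hr1 : r ≤ 1 := hrr.trans ((min_le_left _ _).trans hrA1)
  obtain ⟨hgr, ka, hka, hHy⟩ := hHy r hr (hrr.trans (min_le_left _ _))
  obtain ⟨kb, K, hkb, hK, hlaw⟩ := hlaw r hr (hrr.trans (min_le_right _ _))
  obtain ⟨kc, hkc, hmom⟩ := moments_tv (hG := hG) B μ hgr
  obtain ⟨Gc, hGc⟩ : ∃ Gc : ℝ, Gc = 2 * (2 * Cm + 1) + (20 * Cm + 1) := ⟨_, rfl⟩
  have hGc0 : 0 ≤ Gc := by rw [hGc]; positivity
  obtain ⟨K₁, hK₁⟩ : ∃ K₁ : ℝ, K₁ = Ksh n (cA ^ 2 / 2304) (8 * K) Gc := ⟨_, rfl⟩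
  have hn0 : (0 : ℝ) ≤ n := Nat.cast_nonneg n
  have hK₁0 : 0 ≤ K₁ := by rw [hK₁]; unfold Ksh; positivity
  obtain ⟨K₂, hK₂⟩ : ∃ K₂ : ℝ, K₂ =
    2 * (1 + 5000 * K₁ + 50 * Gc + 50 * Gc * K₁ + Gc * K₁ + 2 * Gc + K₁) := ⟨_, rfl⟩
  have hK₂0 : 0 ≤ K₂ := by rw [hK₂]; positivity
  refine ⟨hgr, max (max (ka + 1) (kb + 1)) (max (max kc (4 / εm)) (4 * Gc)),
    K₁ + K₂ + Gc, le_trans (by linarith) ((le_max_left _ _).trans (le_max_left _ _)),
    by positivity, ?_⟩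
  intro k M a lam L f g F H m η hk hN hS hg T hsum k0 M0 m0 s0
  have hk1 : ka + 1 ≤ k := ((le_max_left _ _).trans (le_max_left _ _)).trans hk
  have hk2 : kb + 1 ≤ k := ((le_max_right _ _).trans (le_max_left _ _)).trans hk
  have hk3 : kc ≤ k := (((le_max_left _ _).trans (le_max_left _ _)).trans (le_max_right _ _)).trans hk
  have hk4 : 4 / εm ≤ k :=
    (((le_max_right _ _).trans (le_max_left _ _)).trans (le_max_right _ _)).trans hk
  have hk5 : 4 * Gc ≤ k := ((le_max_right _ _).trans (le_max_right _ _)).trans hk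
  have hk1' : 1 ≤ k := by linarith
  have hk0 : 0 < k := by linarith
  have hM := hN.M0
  have hMl := hN.Ml
  have hlam := T.lam0
  have hL := T.L0
  have ha0 := abs_nonneg a
  have ha1 : |a| ≤ 1 := by linarith
  have hlam1 : lam ≤ 1 := by linarith
  have hek : 4 ≤ εm * k := by
    rw [div_le_iff₀ hεm0] at hk4
    linarith
  have hr2 : r ^ 2 ≤ 1 := pow_le_one₀ hr.le hr1
  have hMk : M * r ^ 2 ≤ εm * k := by linarith
  have hM1 : (M + 1) * r ^ 2 ≤ εm * (k - 1) := by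
    have : εm ≤ 1 := by linarith
    nlinarith
  -- the base state
  obtain ⟨Y, -⟩ := hHy (k := k) (M := M) (by linarith) hM (hMk.trans
    (mul_le_mul_of_nonneg_right hεm1 hk0.le)) hN.cf hN.ne hN.st hN.tb
  have hMr : M * r ^ 2 ≤ k / 1000 := by
    have := mul_le_mul_of_nonneg_right (hεm1.trans hεA2) hk0.le
    linarith
  obtain ⟨b1, b2⟩ := hmom hk3 hMr Y hN.one hg T.tv hlam hL hsum
  have hW := Y.hW
  -- the perturbed states
  have hp : ∀ t : ℝ, |t| ≤ 1 / 100 → NR B r εm (k + t * a) (M + 1) (fun x => f x + t * g x)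
      (fun u => F u + t * H u) (N991.MK.mT a t m η) := fun t ht =>
    Tg_nr T hgr hN hg hS hsum ht hk1' hM1 (hεm1.trans hεA2) hεm0.le
  have hta : ∀ t : ℝ, |t| ≤ 1 / 100 → k - 1 / 100 ≤ k + t * a := by
    intro t ht
    have h1 : |t * a| ≤ 1 / 100 := by
      rw [abs_mul]
      have := mul_le_mul ht ha1 ha0 (by norm_num)
      linarith
    have := (abs_le.1 h1).1
    linarith
  have hex : ∀ t : ℝ, |t| ≤ 1 / 100 → ∃ (k' M' : ℝ) (m' : (Fin n → ℂ) → ℂ),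
      St B r k' M' (convC μ (fun u => F u + (t : ℂ) * H u) (fun u => F u + (t : ℂ) * H u)) m' ∧
      |k' - ((k + t * a) / 2 - cA / 48 + (cA ^ 2 / 2304 + 3 * qb n (N991.MK.mT a t m η)) /
        (k + t * a))| ≤ 8 * K * (1 + M) / k ^ 2 := by
    intro t ht
    have hN' := hp t ht
    have h1 := hta t ht
    obtain ⟨Y', -⟩ := hHy (k := k + t * a) (M := M + 1) (by linarith) (by linarith)
      (hN'.Ml.trans (mul_le_mul_of_nonneg_right hεm1 (by linarith))) hN'.cf hN'.ne hN'.st hN'.tb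
    obtain ⟨k', M', m', s'⟩ := exists_conv_st hI hn Y'
    refine ⟨k', M', m', s', ?_⟩
    refine law_shift hK hM hk1' (A := k + t * a) (by linarith) ?_
    exact hlaw (by linarith) (by linarith)
      (hN'.Ml.trans (mul_le_mul_of_nonneg_right hεm2 (by linarith))) hN'.cf hN'.ne hN'.st hN'.tb s'
  obtain ⟨kp, Mp, mp, sp, lp⟩ := hex (1 / 100) (by rw [abs_of_pos (by norm_num)])
  obtain ⟨km, Mm, mm, sm, lm⟩ := hex (-(1 / 100)) (by rw [abs_neg, abs_of_pos (by norm_num)])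
  have l0 : |k0 - (k / 2 - cA / 48 + (cA ^ 2 / 2304 + 3 * qb n m) / k)| ≤
      8 * K * (1 + M) / k ^ 2 := by
    refine (hlaw (by linarith) hM (hMk.trans (mul_le_mul_of_nonneg_right hεm2 hk0.le)) hN.cf hN.ne
      hN.st hN.tb s0).trans ?_
    refine div_le_div_of_nonneg_right ?_ (by positivity)
    have : 0 ≤ K * (1 + M) := by positivity
    linarith
  -- the quartic parts
  have Q0 := hN.st.qrt hN.cf.hol hN.ne hr hM
  have hNp := hp (1 / 100) (by rw [abs_of_pos (by norm_num)])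
  have hNm := hp (-(1 / 100)) (by rw [abs_neg, abs_of_pos (by norm_num)])
  have Qp := hNp.st.qrt hNp.cf.hol hNp.ne hr (by linarith)
  have Qm := hNm.st.qrt hNm.cf.hol hNm.ne hr (by linarith)
  have qd : |qb n (N991.MK.mT a (1 / 100) m η) - qb n (N991.MK.mT a (-(1 / 100)) m η)| ≤
      6 * n * (1 / 100) * lam := by
    refine (qb_diff_le (D := 2 * (1 / 100) * lam) (E := 2) hr hn (by positivity) Qp Qm
      fun x hx => mT_diff T hr1 hsum (by norm_num) (by norm_num) hx).trans (le_of_eq ?_)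
    ring
  have qs : ∀ t : ℝ, |t| = 1 / 100 → ∀ x, nC x < r →
      ‖N991.MK.mT a t m η x - m x‖ ≤ 2 * (1 / 100) * nC x ^ 4 + 0 * nC x ^ 6 := by
    intro t ht x hx
    have h1 := (T.st hr1 hsum hN.st hN.one (Tg_one T hr) (t := t) (by rw [ht]; norm_num)).2 x hx
    rw [ht] at h1
    linarith
  have qp : |qb n (N991.MK.mT a (1 / 100) m η) - qb n m| ≤ 6 * n * (1 / 100) := by
    refine (qb_diff_le (D := 2 * (1 / 100)) (E := 0) hr hn (by norm_num) Qp Q0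
      (qs _ (by rw [abs_of_pos (by norm_num)]))).trans (le_of_eq ?_)
    ring
  have qm : |qb n (N991.MK.mT a (-(1 / 100)) m η) - qb n m| ≤ 6 * n * (1 / 100) := by
    refine (qb_diff_le (D := 2 * (1 / 100)) (E := 0) hr hn (by norm_num) Qm Q0
      (qs _ (by rw [abs_neg, abs_of_pos (by norm_num)]))).trans (le_of_eq ?_)
    ring
  have qM : |qb n m| ≤ 3 * n * M := qb_le hN.st hN.cf.hol hN.ne hr hM hn
  -- the moments
  have hγ : |(2 * ∫ z, f z * g z ∂μ) / (∫ z, (f z) ^ 2 ∂μ)| ≤ Gc / k := by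
    rw [abs_div, abs_of_pos hW, div_le_iff₀ hW, abs_mul, abs_two]
    have h1 : |∫ z, f z * g z ∂μ| ≤ ∫ z, |f z| * |g z| ∂μ := by
      refine (abs_integral_le_integral_abs).trans (le_of_eq ?_)
      refine integral_congr_ae (Eventually.of_forall fun z => ?_)
      exact abs_mul _ _
    have h2 : 1 * (2 * Cm + 1) / k * (∫ z, (f z) ^ 2 ∂μ) ≤
        Gc / 2 / k * ∫ z, (f z) ^ 2 ∂μ := by
      refine mul_le_mul_of_nonneg_right (div_le_div_of_nonneg_right ?_ hk0.le) hW.le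
      rw [hGc]
      linarith
    have e : Gc / k * ∫ z, (f z) ^ 2 ∂μ = 2 * (Gc / 2 / k * ∫ z, (f z) ^ 2 ∂μ) := by ring
    rw [e]
    linarith
  have hc : |(∫ z, (g z) ^ 2 ∂μ) / (∫ z, (f z) ^ 2 ∂μ)| ≤ Gc / k ^ 2 := by
    have h0 : 0 ≤ ∫ z, (g z) ^ 2 ∂μ := integral_nonneg fun z => sq_nonneg _
    rw [abs_div, abs_of_pos hW, abs_of_nonneg h0, div_le_iff₀ hW]
    refine b2.trans (mul_le_mul_of_nonneg_right (div_le_div_of_nonneg_right ?_ (by positivity))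
      hW.le)
    rw [hGc]
    linarith
  obtain ⟨γ, hγd⟩ : ∃ γ : ℝ, γ = (2 * ∫ z, f z * g z ∂μ) / (∫ z, (f z) ^ 2 ∂μ) := ⟨_, rfl⟩
  obtain ⟨c, hcd⟩ : ∃ c : ℝ, c = (∫ z, (g z) ^ 2 ∂μ) / (∫ z, (f z) ^ 2 ∂μ) := ⟨_, rfl⟩
  obtain ⟨id1, id2⟩ := sharp_id (B := B) hn hr hr1 hN.cf hg hW s0 sp sm
  rw [← hγd] at hγ id1 id2
  rw [← hcd] at hc id1 id2
  obtain ⟨a₁, ha₁⟩ : ∃ a₁ : ℝ, a₁ = 50 * (kp - km) * (1 + (1 / 100) ^ 2 * c) +
    γ / 2 * (kp + km - 2 * k0) := ⟨_, rfl⟩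
  have ep : k + 1 / 100 * a = k + 1 / 100 * a := rfl
  have em : k + -(1 / 100) * a = k - 1 / 100 * a := by ring
  rw [em] at lm
  obtain ⟨A1, A2, A3⟩ := sharp_arith (a1 := a₁) hk1' hM ha1 hlam hn0 (by positivity : 0 ≤ 8 * K)
    hGc0 lp lm l0 qd qp qm qM hγ hc (by rw [ha₁]; ring)
  rw [← hK₁] at A1 A2 A3
  constructor
  · intro a1 Λ γ' η' h1 h2
    obtain ⟨h3, h4⟩ := id2 h1 h2
    constructor
    · rw [h3, Complex.norm_real, Real.norm_eq_abs]
      refine hγ.trans (div_le_div_of_nonneg_right ?_ hk0.le)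
      linarith
    · rw [h4, ← ha₁]
      refine A1.trans (mul_le_mul_of_nonneg_right (by linarith) (by positivity))
  · intro t kt Mt mt ht st
    have h1 := sharp_finite hk1' hk5 hM ha1 hlam hlam1 hGc0 hK₁0 hγ hc ht
      (by rw [← ha₁]; exact A1) A2 A3 (id1 st)
    rw [← hK₂] at h1
    refine h1.trans (mul_le_mul_of_nonneg_right (by linarith) (by positivity))

end

end Pool.Agent.N988.MK.T3
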