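import Mathlib
import Pool.Agent.N984.T3.Sharp

/-!
# The sharp law of the coupling for finite perturbations
-/

open MeasureTheory Filter Metric Asymptotics Matrix
open scoped Matrix.Norms.Frobenius Topology ContDiff
open Pool.Agent.H906R3.YM Pool.Agent.W793.YM Pool.Agent.TH618.YM Pool.Agent.N984.TW
open Pool.Agent.N991.MK Pool.Agent.N984.T3

namespace Pool.Agent.N988.MK.T3

set_option linter.unusedSectionVars false

noncomputable section

/-! ## polynomials of degree four -/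

lemma poly4 {p0 p1 p2 p3 p4 E t : ℝ}
    (h : ∀ s : ℝ, |s| ≤ 1 / 100 → |p0 + p1 * s + p2 * s ^ 2 + p3 * s ^ 3 + p4 * s ^ 4| ≤ E)
    (ht : |t| ≤ 1 / 100) :
    |p1 * t + p2 * t ^ 2 + p3 * t ^ 3 + p4 * t ^ 4| ≤ 5000 * |t| * E := by
  obtain ⟨u, hu⟩ : ∃ u : ℝ, u = 200 * t := ⟨_, rfl⟩
  have ht' : t = u / 200 := by rw [hu]; ring
  have hu2 : |u| ≤ 2 := by
    rw [hu, abs_mul, abs_of_pos (by norm_num : (0 : ℝ) < 200)]
    linarith
  have hu' := abs_le.1 hu2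
  have hu0 := abs_nonneg u
  have h1 := h (-(1 / 100)) (by rw [abs_neg, abs_of_pos (by norm_num)])
  have h2 := h (-(1 / 200)) (by rw [abs_neg, abs_of_pos (by norm_num)]; norm_num)
  have h3 := h 0 (by rw [abs_zero]; norm_num)
  have h4 := h (1 / 200) (by rw [abs_of_pos (by norm_num)]; norm_num)
  have h5 := h (1 / 100) (by rw [abs_of_pos (by norm_num)])
  have hE : 0 ≤ E := (abs_nonneg _).trans h3
  obtain ⟨A, hA⟩ : ∃ A : ℝ, A = p0 + p1 * (-(1 / 100)) + p2 * (-(1 / 100)) ^ 2 +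
    p3 * (-(1 / 100)) ^ 3 + p4 * (-(1 / 100)) ^ 4 := ⟨_, rfl⟩
  obtain ⟨B, hB⟩ : ∃ B : ℝ, B = p0 + p1 * (-(1 / 200)) + p2 * (-(1 / 200)) ^ 2 +
    p3 * (-(1 / 200)) ^ 3 + p4 * (-(1 / 200)) ^ 4 := ⟨_, rfl⟩
  obtain ⟨C, hC⟩ : ∃ C : ℝ, C = p0 + p1 * 0 + p2 * 0 ^ 2 + p3 * 0 ^ 3 + p4 * 0 ^ 4 := ⟨_, rfl⟩
  obtain ⟨D, hD⟩ : ∃ D : ℝ, D = p0 + p1 * (1 / 200) + p2 * (1 / 200) ^ 2 +
    p3 * (1 / 200) ^ 3 + p4 * (1 / 200) ^ 4 := ⟨_, rfl⟩
  obtain ⟨F, hF⟩ : ∃ F : ℝ, F = p0 + p1 * (1 / 100) + p2 * (1 / 100) ^ 2 +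
    p3 * (1 / 100) ^ 3 + p4 * (1 / 100) ^ 4 := ⟨_, rfl⟩
  rw [← hA] at h1
  rw [← hB] at h2
  rw [← hC] at h3
  rw [← hD] at h4
  rw [← hF] at h5
  have e : p1 * t + p2 * t ^ 2 + p3 * t ^ 3 + p4 * t ^ 4 =
      u * ((u + 1) * (u - 1) * (u - 2) / 24 * A - (u + 2) * (u - 1) * (u - 2) / 6 * B +
        u * (u ^ 2 - 5) / 4 * C - (u + 2) * (u + 1) * (u - 2) / 6 * D +
        (u + 2) * (u + 1) * (u - 1) / 24 * F) := by
    rw [hA, hB, hC, hD, hF, ht']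
    ring
  have a1 : |u + 1| ≤ 3 := by rw [abs_le]; constructor <;> linarith
  have a2 : |u - 1| ≤ 3 := by rw [abs_le]; constructor <;> linarith
  have a3 : |u - 2| ≤ 4 := by rw [abs_le]; constructor <;> linarith
  have a4 : |u + 2| ≤ 4 := by rw [abs_le]; constructor <;> linarith
  have a5 : |u ^ 2 - 5| ≤ 5 := by
    have : u ^ 2 ≤ 4 := by nlinarith
    rw [abs_le]; constructor <;> nlinarith [sq_nonneg u]
  have m3 : ∀ {x y z w a b c X : ℝ}, |x| ≤ a → |y| ≤ b → |z| ≤ c → 0 < w → |X| ≤ E → 0 ≤ a → 0 ≤ b →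
      0 ≤ c → |x * y * z / w * X| ≤ a * b * c / w * E := by
    intro x y z w a b c X hx hy hz hw hX ha hb hc
    rw [abs_mul, abs_div, abs_mul, abs_mul, abs_of_pos hw]
    have g1 : |x| * |y| ≤ a * b := mul_le_mul hx hy (abs_nonneg _) ha
    have g2 : |x| * |y| * |z| ≤ a * b * c := mul_le_mul g1 hz (abs_nonneg _) (by positivity)
    exact mul_le_mul (div_le_div_of_nonneg_right g2 hw.le) hX (abs_nonneg _) (by positivity)
  have b1 := m3 (w := 24) a1 a2 a3 (by norm_num) h1 (by norm_num) (by norm_num) (by norm_num)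
  have b2 := m3 (w := 6) a4 a2 a3 (by norm_num) h2 (by norm_num) (by norm_num) (by norm_num)
  have b4 := m3 (w := 6) a4 a1 a3 (by norm_num) h4 (by norm_num) (by norm_num) (by norm_num)
  have b5 := m3 (w := 24) a4 a1 a2 (by norm_num) h5 (by norm_num) (by norm_num) (by norm_num)
  have b3 : |u * (u ^ 2 - 5) / 4 * C| ≤ 10 / 4 * E := by
    rw [abs_mul, abs_div, abs_mul, abs_of_pos (by norm_num : (0 : ℝ) < 4)]
    refine mul_le_mul (div_le_div_of_nonneg_right ?_ (by norm_num)) h3 (abs_nonneg _) (by norm_num)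
    calc |u| * |u ^ 2 - 5| ≤ 2 * 5 := mul_le_mul hu2 a5 (abs_nonneg _) (by norm_num)
      _ = 10 := by norm_num
  have hu200 : |u| = 200 * |t| := by
    rw [hu, abs_mul, abs_of_pos (by norm_num : (0 : ℝ) < 200)]
  rw [e, abs_mul, hu200]
  have c1 : |(u + 1) * (u - 1) * (u - 2) / 24 * A - (u + 2) * (u - 1) * (u - 2) / 6 * B +
        u * (u ^ 2 - 5) / 4 * C - (u + 2) * (u + 1) * (u - 2) / 6 * D +
        (u + 2) * (u + 1) * (u - 1) / 24 * F| ≤ 25 * E := by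
    rw [abs_le] at b1 b2 b3 b4 b5 ⊢
    constructor <;> linarith [b1.1, b1.2, b2.1, b2.2, b3.1, b3.2, b4.1, b4.2, b5.1, b5.2]
  calc 200 * |t| * _ ≤ 200 * |t| * (25 * E) := mul_le_mul_of_nonneg_left c1 (by positivity)
    _ = _ := by ring

/-- **the arithmetic of the finite pair** -/
theorem pair_arith {k a g c c1 c2 k0 kp km q0 e1 e2 E G : ℝ} {K : ℝ → ℝ} (hk : 1 ≤ k)
    (hkG : 4 * G ≤ k) (ha : |a| ≤ 1) (hG : 0 ≤ G) (hg : |g| ≤ G / k) (hc : |c| ≤ G / k ^ 2)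
    (hid : ∀ s : ℝ, |s| ≤ 1 / 100 → K s * (1 + g * s + c * s ^ 2) = (1 - (100 * s) ^ 2) * k0 +
      ((100 * s) ^ 2 + 100 * s) / 2 * (kp * (1 + g * (1 / 100) + c * (1 / 100) ^ 2)) +
      ((100 * s) ^ 2 - 100 * s) / 2 * (km * (1 - g * (1 / 100) + c * (1 / 100) ^ 2)))
    (hR : ∀ s : ℝ, |s| ≤ 1 / 100 → |K s - ((k + s * a) / 2 - c1 +
      (c2 + 3 * (q0 + e1 * s + e2 * s ^ 2)) / (k + s * a))| ≤ E)
    {t : ℝ} (ht : |t| ≤ 1 / 100) :
    |(K t - ((k + t * a) / 2 - c1 + (c2 + 3 * (q0 + e1 * t + e2 * t ^ 2)) / (k + t * a))) -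
      (K 0 - (k / 2 - c1 + (c2 + 3 * q0) / k))| ≤ (60000 + 4 * (1 + 4 * G)) * |t| * E := by
  have hk0 : 0 < k := by linarith
  have hE : 0 ≤ E := (abs_nonneg _).trans (hR 0 (by rw [abs_zero]; norm_num))
  obtain ⟨Q, hQ⟩ : ∃ Q : ℝ → ℝ, Q = fun s => (k + s * a) * (1 + g * s + c * s ^ 2) * (K s -
    ((k + s * a) / 2 - c1 + (c2 + 3 * (q0 + e1 * s + e2 * s ^ 2)) / (k + s * a))) := ⟨_, rfl⟩
  obtain ⟨Sp, hSp⟩ : ∃ Sp : ℝ, Sp = kp * (1 + g * (1 / 100) + c * (1 / 100) ^ 2) := ⟨_, rfl⟩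
  obtain ⟨Sm, hSm⟩ : ∃ Sm : ℝ, Sm = km * (1 - g * (1 / 100) + c * (1 / 100) ^ 2) := ⟨_, rfl⟩
  rw [← hSp, ← hSm] at hid
  have hsa : ∀ s : ℝ, |s| ≤ 1 / 100 → |s * a| ≤ 1 / 100 := by
    intro s hs
    rw [abs_mul]
    have := mul_le_mul hs ha (abs_nonneg _) (by norm_num)
    linarith
  have hA : ∀ s : ℝ, |s| ≤ 1 / 100 → k / 2 ≤ k + s * a ∧ k + s * a ≤ 2 * k := by
    intro s hs
    have := abs_le.1 (hsa s hs)
    constructor <;> linarith
  have hGk : G / k ≤ 1 / 4 := by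
    rw [div_le_div_iff₀ hk0 (by norm_num)]
    linarith
  have hGk2 : G / k ^ 2 ≤ G / k := by
    refine div_le_div_of_nonneg_left hG hk0 ?_
    nlinarith
  have hDb : ∀ s : ℝ, |s| ≤ 1 / 100 → |g * s + c * s ^ 2| ≤ G / k * (2 * |s|) := by
    intro s hs
    have hs0 := abs_nonneg s
    refine (abs_add_le _ _).trans ?_
    rw [abs_mul, abs_mul, abs_of_nonneg (sq_nonneg s)]
    have g1 := mul_le_mul_of_nonneg_right hg hs0
    have g2 : |c| * s ^ 2 ≤ G / k * |s| := by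
      refine mul_le_mul (hc.trans hGk2) ?_ (sq_nonneg _) (by positivity)
      rw [← sq_abs, sq]
      exact mul_le_of_le_one_left hs0 (by linarith)
    linarith
  have hD : ∀ s : ℝ, |s| ≤ 1 / 100 → 1 / 2 ≤ 1 + g * s + c * s ^ 2 ∧
      1 + g * s + c * s ^ 2 ≤ 3 / 2 := by
    intro s hs
    have h1 := hDb s hs
    have h2 : G / k * (2 * |s|) ≤ 1 / 4 * (2 * (1 / 100)) :=
      mul_le_mul hGk (by linarith) (by positivity) (by norm_num)
    have h3 := abs_le.1 (h1.trans h2)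
    constructor <;> linarith [h3.1, h3.2]
  obtain ⟨B1, hB1⟩ : ∃ B1 : ℝ, B1 = 50 * (Sp - Sm) := ⟨_, rfl⟩
  obtain ⟨B2, hB2⟩ : ∃ B2 : ℝ, B2 = 5000 * (Sp + Sm) - 10000 * k0 := ⟨_, rfl⟩
  have hpoly : ∀ s : ℝ, |s| ≤ 1 / 100 → Q s =
      (k * k0 - (k ^ 2 / 2 - c1 * k + c2 + 3 * q0)) +
      (a * k0 + k * B1 - (g * (k ^ 2 / 2 - c1 * k + c2 + 3 * q0) +
        (a * k - c1 * a + 3 * e1))) * s +
      (a * B1 + k * B2 - (c * (k ^ 2 / 2 - c1 * k + c2 + 3 * q0) +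
        g * (a * k - c1 * a + 3 * e1) + (a ^ 2 / 2 + 3 * e2))) * s ^ 2 +
      (a * B2 - (c * (a * k - c1 * a + 3 * e1) + g * (a ^ 2 / 2 + 3 * e2))) * s ^ 3 +
      (-(c * (a ^ 2 / 2 + 3 * e2))) * s ^ 4 := by
    intro s hs
    have hne : k + s * a ≠ 0 := by
      have := (hA s hs).1
      have : 0 < k + s * a := by linarith
      exact this.ne'
    have h1 := hid s hs
    have e : Q s = (k + s * a) * (K s * (1 + g * s + c * s ^ 2)) - (1 + g * s + c * s ^ 2) *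
        ((k + s * a) ^ 2 / 2 - c1 * (k + s * a) + (c2 + 3 * (q0 + e1 * s + e2 * s ^ 2))) := by
      rw [hQ]
      beta_reduce
      field_simp
    rw [e, h1, hB1, hB2]
    ring
  have hQb : ∀ s : ℝ, |s| ≤ 1 / 100 → |Q s| ≤ 3 * k * E := by
    intro s hs
    rw [hQ]
    beta_reduce
    rw [abs_mul, abs_mul]
    obtain ⟨h1, h2⟩ := hA s hs
    obtain ⟨h3, h4⟩ := hD s hs
    rw [abs_of_pos (by linarith : 0 < k + s * a),
      abs_of_pos (by linarith : 0 < 1 + g * s + c * s ^ 2)]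
    refine mul_le_mul ?_ (hR s hs) (abs_nonneg _) (by positivity)
    calc (k + s * a) * (1 + g * s + c * s ^ 2) ≤ (2 * k) * (3 / 2) :=
          mul_le_mul h2 h4 (by linarith) (by positivity)
      _ = 3 * k := by ring
  have hdiff : |Q t - Q 0| ≤ 5000 * |t| * (3 * k * E) := by
    have h1 := poly4 (t := t) (E := 3 * k * E) (fun s hs => by
      have := hQb s hs
      rw [hpoly s hs] at this
      exact this) ht
    have e : Q t - Q 0 =
      (a * k0 + k * B1 - (g * (k ^ 2 / 2 - c1 * k + c2 + 3 * q0) +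
        (a * k - c1 * a + 3 * e1))) * t +
      (a * B1 + k * B2 - (c * (k ^ 2 / 2 - c1 * k + c2 + 3 * q0) +
        g * (a * k - c1 * a + 3 * e1) + (a ^ 2 / 2 + 3 * e2))) * t ^ 2 +
      (a * B2 - (c * (a * k - c1 * a + 3 * e1) + g * (a ^ 2 / 2 + 3 * e2))) * t ^ 3 +
      (-(c * (a ^ 2 / 2 + 3 * e2))) * t ^ 4 := by
      rw [hpoly t ht, hpoly 0 (by rw [abs_zero]; norm_num)]
      ring
    rw [e]
    exact h1
  obtain ⟨Rt, hRt⟩ : ∃ Rt : ℝ, Rt = K t - ((k + t * a) / 2 - c1 +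
    (c2 + 3 * (q0 + e1 * t + e2 * t ^ 2)) / (k + t * a)) := ⟨_, rfl⟩
  obtain ⟨R0, hR0⟩ : ∃ R0 : ℝ, R0 = K 0 - (k / 2 - c1 + (c2 + 3 * q0) / k) := ⟨_, rfl⟩
  have hQt : Q t = (k + t * a) * (1 + g * t + c * t ^ 2) * Rt := by rw [hQ, hRt]
  have hQ0 : Q 0 = k * R0 := by
    rw [hQ, hR0]
    beta_reduce
    simp only [zero_mul, mul_zero, add_zero, ne_eq, OfNat.ofNat_ne_zero, not_false_eq_true,
      zero_pow, mul_one]
  have hR0b : |R0| ≤ E := by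
    have h1 := hR 0 (by rw [abs_zero]; norm_num)
    have e : K 0 - ((k + 0 * a) / 2 - c1 + (c2 + 3 * (q0 + e1 * 0 + e2 * 0 ^ 2)) / (k + 0 * a)) =
        R0 := by
      rw [hR0]
      simp only [zero_mul, mul_zero, add_zero, ne_eq, OfNat.ofNat_ne_zero, not_false_eq_true,
        zero_pow]
    rwa [e] at h1
  rw [← hRt, ← hR0]
  obtain ⟨Z, hZ⟩ : ∃ Z : ℝ, Z = (k + t * a) * (1 + g * t + c * t ^ 2) := ⟨_, rfl⟩
  obtain ⟨h1, h2⟩ := hA t ht
  obtain ⟨h3, h4⟩ := hD t ht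
  have hZ0 : k / 4 ≤ Z := by
    rw [hZ]
    calc k / 4 = k / 2 * (1 / 2) := by ring
      _ ≤ _ := mul_le_mul h1 h3 (by norm_num) (by linarith)
  have hZp : 0 < Z := by linarith
  rw [← hZ] at hQt
  have ht0 := abs_nonneg t
  have hkZ : |k - Z| ≤ |t| * (1 + 4 * G) := by
    have e : k - Z = -(t * a) - (k + t * a) * (g * t + c * t ^ 2) := by rw [hZ]; ring
    rw [e]
    refine (abs_sub _ _).trans ?_
    rw [abs_neg, abs_mul, abs_mul, abs_of_pos (by linarith : 0 < k + t * a)]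
    have g1 : |t| * |a| ≤ |t| := mul_le_of_le_one_right ht0 ha
    have g2 : (k + t * a) * |g * t + c * t ^ 2| ≤ 2 * k * (G / k * (2 * |t|)) :=
      mul_le_mul h2 (hDb t ht) (abs_nonneg _) (by positivity)
    have g3 : 2 * k * (G / k * (2 * |t|)) = 4 * G * |t| := by
      field_simp
      ring
    linarith
  have e : Rt - R0 = (Q t - Q 0) / Z + R0 * (k - Z) / Z := by
    rw [hQt, hQ0]
    field_simp
    ring
  rw [e]
  refine (abs_add_le _ _).trans ?_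
  rw [abs_div, abs_div, abs_mul, abs_of_pos hZp]
  have f1 : |Q t - Q 0| / Z ≤ 60000 * |t| * E := by
    rw [div_le_iff₀ hZp]
    refine hdiff.trans ?_
    have : 60000 * |t| * E * (k / 4) ≤ 60000 * |t| * E * Z :=
      mul_le_mul_of_nonneg_left hZ0 (by positivity)
    linarith
  have f2 : |R0| * |k - Z| / Z ≤ 4 * (1 + 4 * G) * |t| * E := by
    rw [div_le_iff₀ hZp]
    have g1 : |R0| * |k - Z| ≤ E * (|t| * (1 + 4 * G)) := mul_le_mul hR0b hkZ (abs_nonneg _) hE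
    have g2 : 1 / 4 ≤ Z := by linarith
    have g3 : 4 * (1 + 4 * G) * |t| * E * (1 / 4) ≤ 4 * (1 + 4 * G) * |t| * E * Z :=
      mul_le_mul_of_nonneg_left g2 (by positivity)
    linarith
  linarith

/-! ## the quartic part is quadratic in the parameter -/

section
variable {N n : ℕ} {G : Subgroup (UN N)} {B : Frame G n}
variable {r k M a lam L : ℝ} {F H : (Mat N)ˣ → ℂ} {m η : (Fin n → ℂ) → ℂ}

lemma mT_taylor (h : Tg B r k a lam L F H η) (hr : r ≤ 1) (ha : |a| + lam + L ≤ 1) {t : ℝ}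
    (ht : |t| ≤ 1 / 2) {x : Fin n → ℂ} (hx : nC x < r) :
    ‖mT a t m η x - (m x + t * η x + (t : ℂ) ^ 2 * (a : ℂ) ^ 2 / 8 * (qC x) ^ 2)‖ ≤
      3 * nC x ^ 6 := by
  have hn := nC_nonneg x
  have h1 := h.phT_le hr ha hx
  have hlam := h.lam0
  have hL := h.L0
  have ha0 := abs_nonneg a
  obtain ⟨p, hp⟩ : ∃ p : ℂ, p = phT a η x := ⟨_, rfl⟩
  rw [← hp] at h1
  have hn1 : nC x ^ 2 ≤ 1 := pow_le_one₀ hn (by linarith)
  have hz : ‖(t : ℂ) * p‖ ≤ 1 / 2 * nC x ^ 2 := by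
    rw [norm_mul, Complex.norm_real, Real.norm_eq_abs]
    exact mul_le_mul ht h1 (norm_nonneg _) (by norm_num)
  have hz1 : ‖(t : ℂ) * p‖ ≤ 1 / 2 := by linarith
  have key : ‖Complex.log (1 + (t : ℂ) * p) - ((t : ℂ) * p - ((t : ℂ) * p) ^ 2 / 2)‖ ≤
      nC x ^ 6 := by
    have h2 := Complex.norm_log_sub_logTaylor_le 2 (z := (t : ℂ) * p) (by linarith)
    have e : Complex.logTaylor (2 + 1) ((t : ℂ) * p) = (t : ℂ) * p - ((t : ℂ) * p) ^ 2 / 2 := by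
      simp [Complex.logTaylor_succ, Complex.logTaylor_zero]
      ring
    rw [e] at h2
    refine h2.trans ?_
    obtain ⟨w, hw⟩ : ∃ w : ℝ, w = ‖(t : ℂ) * p‖ := ⟨_, rfl⟩
    rw [← hw] at hz hz1 ⊢
    have hw0 : 0 ≤ w := by rw [hw]; exact norm_nonneg _
    have h3 : (1 - w)⁻¹ ≤ 2 := by
      rw [inv_le_comm₀ (by linarith) (by norm_num)]
      linarith
    have h4 : w ^ (2 + 1) ≤ (1 / 2 * nC x ^ 2) ^ (2 + 1) := pow_le_pow_left₀ hw0 hz _
    have h5 : w ^ (2 + 1) * (1 - w)⁻¹ ≤ (1 / 2 * nC x ^ 2) ^ (2 + 1) * 2 :=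
      mul_le_mul h4 h3 (inv_nonneg.2 (by linarith)) (by positivity)
    have h6 : 0 ≤ nC x ^ 6 := by positivity
    have e6 : (1 / 2 * nC x ^ 2) ^ (2 + 1) * 2 = 1 / 4 * nC x ^ 6 := by ring
    rw [e6] at h5
    push_cast
    rw [div_le_iff₀ (by norm_num)]
    linarith
  have hη : η x = -(a / 2) * qC x - p := by rw [hp]; unfold phT; ring
  have hη2 := h.bd x hx
  have e : mT a t m η x - (m x + t * η x + (t : ℂ) ^ 2 * (a : ℂ) ^ 2 / 8 * (qC x) ^ 2) =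
      -(Complex.log (1 + (t : ℂ) * p) - ((t : ℂ) * p - ((t : ℂ) * p) ^ 2 / 2)) +
        (t : ℂ) ^ 2 / 2 * (η x * (a * qC x + η x)) := by
    unfold mT
    rw [← hp]
    have e2 : p = -(a / 2) * qC x - η x := by rw [hη]; ring
    rw [e2]
    ring
  rw [e]
  refine (norm_add_le _ _).trans ?_
  rw [norm_neg]
  have h7 : ‖(t : ℂ) ^ 2 / 2 * (η x * (a * qC x + η x))‖ ≤ 2 * nC x ^ 6 := by
    rw [norm_mul, norm_mul, norm_div, norm_pow, Complex.norm_real, Real.norm_eq_abs, sq_abs,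
      Complex.norm_two]
    have h8 : ‖(a : ℂ) * qC x + η x‖ ≤ nC x ^ 2 := by
      refine (norm_add_le _ _).trans ?_
      rw [norm_mul, Complex.norm_real, Real.norm_eq_abs]
      have h9 := mul_le_mul_of_nonneg_left (norm_qC_le x) ha0
      have h10 : lam * nC x ^ 4 ≤ lam * nC x ^ 2 := by
        refine mul_le_mul_of_nonneg_left ?_ hlam
        have e4 : nC x ^ 4 = nC x ^ 2 * nC x ^ 2 := by ring
        rw [e4]
        exact mul_le_of_le_one_right (by positivity) hn1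
      have h11 : (|a| + lam) * nC x ^ 2 ≤ 1 * nC x ^ 2 :=
        mul_le_mul_of_nonneg_right (by linarith) (by positivity)
      linarith
    have h12 : ‖η x‖ ≤ nC x ^ 4 := hη2.trans (mul_le_of_le_one_left (by positivity) (by linarith))
    have h13 : ‖η x‖ * ‖(a : ℂ) * qC x + η x‖ ≤ nC x ^ 4 * nC x ^ 2 :=
      mul_le_mul h12 h8 (norm_nonneg _) (by positivity)
    have h14 : t ^ 2 / 2 ≤ 1 := by
      have : t ^ 2 ≤ 1 := by
        rw [← sq_abs]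
        exact pow_le_one₀ (abs_nonneg _) (by linarith)
      linarith
    have h15 := mul_le_mul h14 h13 (by positivity) (by norm_num)
    have e6 : nC x ^ 4 * nC x ^ 2 = nC x ^ 6 := by ring
    rw [e6] at h15
    have : 0 ≤ nC x ^ 6 := by positivity
    linarith
  linarith

/-- the quartic part of the perturbed state -/
lemma m4_mT (hr : 0 < r) (hr1 : r ≤ 1) (h : Tg B r k a lam L F H η) (ha : |a| + lam + L ≤ 1)
    {M₀ M₁ M₂ C₀ C₁ C₂ t : ℝ} (ht : |t| ≤ 1 / 100) (Q0 : Qrt r M₀ C₀ m (m4 m))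
    (Q1 : Qrt r M₁ C₁ (mT a (1 / 100) m η) (m4 (mT a (1 / 100) m η)))
    (Q2 : Qrt r M₂ C₂ (mT a t m η) (m4 (mT a t m η))) (x : Fin n → ℂ) :
    m4 (mT a t m η) x = m4 m x + 100 * t * (m4 (mT a (1 / 100) m η) x - m4 m x) +
      ((t : ℂ) ^ 2 - t / 100) * (a : ℂ) ^ 2 / 8 * (qC x) ^ 2 := by
  have hx0 := nC_nonneg x
  obtain ⟨Δ, hΔ⟩ : ∃ Δ : ℂ, Δ = m4 (mT a t m η) x - (m4 m x +
    100 * t * (m4 (mT a (1 / 100) m η) x - m4 m x) +
      ((t : ℂ) ^ 2 - t / 100) * (a : ℂ) ^ 2 / 8 * (qC x) ^ 2) := ⟨_, rfl⟩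
  have key : ∀ s : ℝ, 0 < s → s * nC x < r →
      ‖Δ‖ ≤ (6 + C₂ + 2 * C₀ + C₁) * nC x ^ 6 * s ^ 2 := by
    intro s hs hsr
    have h1 : nC ((s : ℂ) • x) < r := by
      rw [nC_smul, Complex.norm_real, Real.norm_eq_abs, abs_of_pos hs]
      exact hsr
    have a0 := Q0.near _ h1
    have a1 := Q1.near _ h1
    have a2 := Q2.near _ h1
    have t1 := mT_taylor (m := m) h hr1 ha (t := 1 / 100)
      (by rw [abs_of_pos (by norm_num)]; norm_num) h1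
    have t2 := mT_taylor (m := m) h hr1 ha (t := t) (by linarith) h1
    rw [Q0.hom] at a0
    rw [Q1.hom] at a1
    rw [Q2.hom] at a2
    have hq : qC ((s : ℂ) • x) = (s : ℂ) ^ 2 * qC x := by
      unfold qC
      rw [Finset.mul_sum]
      refine Finset.sum_congr rfl fun i _ => ?_
      rw [Pi.smul_apply, smul_eq_mul, mul_pow]
    rw [hq] at t1 t2
    rw [nC_smul, Complex.norm_real, Real.norm_eq_abs, abs_of_pos hs] at a0 a1 a2 t1 t2
    obtain ⟨y0, hy0⟩ : ∃ y : ℂ, y = m ((s : ℂ) • x) := ⟨_, rfl⟩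
    obtain ⟨y1, hy1⟩ : ∃ y : ℂ, y = mT a (1 / 100) m η ((s : ℂ) • x) := ⟨_, rfl⟩
    obtain ⟨y2, hy2⟩ : ∃ y : ℂ, y = mT a t m η ((s : ℂ) • x) := ⟨_, rfl⟩
    obtain ⟨e0, he0⟩ : ∃ y : ℂ, y = η ((s : ℂ) • x) := ⟨_, rfl⟩
    rw [← hy0] at a0 t1 t2
    rw [← hy1] at a1 t1
    rw [← hy2] at a2 t2
    rw [← he0] at t1 t2
    have e : (s : ℂ) ^ 4 * Δ = -(y2 - (s : ℂ) ^ 4 * m4 (mT a t m η) x) +
        (y2 - (y0 + t * e0 + (t : ℂ) ^ 2 * (a : ℂ) ^ 2 / 8 * ((s : ℂ) ^ 2 * qC x) ^ 2)) +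
        (1 - 100 * t) * (y0 - (s : ℂ) ^ 4 * m4 m x) -
        100 * t * (y1 - (y0 + ((1 / 100 : ℝ) : ℂ) * e0 +
          ((1 / 100 : ℝ) : ℂ) ^ 2 * (a : ℂ) ^ 2 / 8 * ((s : ℂ) ^ 2 * qC x) ^ 2)) +
        100 * t * (y1 - (s : ℂ) ^ 4 * m4 (mT a (1 / 100) m η) x) := by
      rw [hΔ]
      push_cast
      ring
    have ht100 : ‖(100 * (t : ℂ))‖ ≤ 1 := by
      rw [norm_mul, Complex.norm_real, Real.norm_eq_abs]
      have : ‖(100 : ℂ)‖ = 100 := by simp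
      rw [this]
      linarith
    have ht101 : ‖1 - (100 * (t : ℂ))‖ ≤ 2 := by
      refine (norm_sub_le _ _).trans ?_
      rw [norm_one]
      linarith
    have h5 : ‖(s : ℂ) ^ 4 * Δ‖ ≤ C₂ * (s * nC x) ^ 6 + 3 * (s * nC x) ^ 6 +
        2 * (C₀ * (s * nC x) ^ 6) + 1 * (3 * (s * nC x) ^ 6) + 1 * (C₁ * (s * nC x) ^ 6) := by
      rw [e]
      refine (norm_add_le _ _).trans (add_le_add ((norm_sub_le _ _).trans (add_le_add
        ((norm_add_le _ _).trans (add_le_add ((norm_add_le _ _).trans (add_le_add ?_ t2)) ?_))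
        ?_)) ?_)
      · rw [norm_neg]; exact a2
      · rw [norm_mul]
        exact mul_le_mul ht101 a0 (norm_nonneg _) (by norm_num)
      · rw [norm_mul]
        exact mul_le_mul ht100 t1 (norm_nonneg _) (by norm_num)
      · rw [norm_mul]
        exact mul_le_mul ht100 a1 (norm_nonneg _) (by norm_num)
    rw [norm_mul, norm_pow, Complex.norm_real, Real.norm_eq_abs, abs_of_pos hs] at h5
    refine le_of_mul_le_mul_left (a := s ^ 4) (h5.trans (le_of_eq ?_)) (by positivity)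
    ring
  have hlim : Tendsto (fun s : ℝ => (6 + C₂ + 2 * C₀ + C₁) * nC x ^ 6 * s ^ 2) (𝓝[>] 0)
      (𝓝 0) := by
    have h2 : Continuous fun s : ℝ => (6 + C₂ + 2 * C₀ + C₁) * nC x ^ 6 * s ^ 2 := by
      fun_prop
    have h3 := (h2.tendsto 0).mono_left (nhdsWithin_le_nhds (s := Set.Ioi (0 : ℝ)))
    simpa using h3
  have hΔ0 : ‖Δ‖ ≤ 0 := by
    refine ge_of_tendsto hlim ?_
    have hp : 0 < r / (nC x + 1) := by positivity
    filter_upwards [Ioo_mem_nhdsGT hp] with s hs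
    refine key s hs.1 ?_
    have h1 := hs.2
    rw [lt_div_iff₀ (by positivity)] at h1
    have := hs.1
    nlinarith
  have h3 := norm_le_zero_iff.1 hΔ0
  rw [hΔ] at h3
  exact sub_eq_zero.1 h3

/-- the trace of the quartic part is a polynomial of degree two in the parameter -/
lemma qb_mT (hr : 0 < r) (hr1 : r ≤ 1) (h : Tg B r k a lam L F H η) (ha : |a| + lam + L ≤ 1)
    {M₀ C₀ : ℝ} (Q0 : Qrt r M₀ C₀ m (m4 m))
    (Qt : ∀ t : ℝ, |t| ≤ 1 / 100 → ∃ M₁ C₁ : ℝ, Qrt r M₁ C₁ (mT a t m η) (m4 (mT a t m η))) :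
    ∃ e1 e2 : ℝ, ∀ t : ℝ, |t| ≤ 1 / 100 →
      qb n (mT a t m η) = qb n m + e1 * t + e2 * t ^ 2 := by
  obtain ⟨M₁, C₁, Q1⟩ := Qt (1 / 100) (by rw [abs_of_pos (by norm_num)])
  obtain ⟨w, hw⟩ : ∃ w : ℝ, w = 1 / (12 * (n : ℝ)) * ∑ b : Fin n, ∑ c : Fin n,
    ((qC (Pi.single b (1 : ℂ) + Pi.single c 1 : Fin n → ℂ)) ^ 2 +
      (qC (Pi.single b (1 : ℂ) - Pi.single c 1 : Fin n → ℂ)) ^ 2 -
      2 * (qC (Pi.single b (1 : ℂ) : Fin n → ℂ)) ^ 2 -
      2 * (qC (Pi.single c (1 : ℂ) : Fin n → ℂ)) ^ 2).re := ⟨_, rfl⟩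
  refine ⟨100 * (qb n (mT a (1 / 100) m η) - qb n m) - a ^ 2 / 8 * w / 100, a ^ 2 / 8 * w,
    fun t ht => ?_⟩
  obtain ⟨M₂, C₂, Q2⟩ := Qt t ht
  have hm := m4_mT hr hr1 h ha ht Q0 Q1 Q2
  have hT : ∀ b c : Fin n, (T4 (mT a t m η) (Pi.single b 1) (Pi.single c 1)).re =
      (T4 m (Pi.single b 1) (Pi.single c 1)).re +
      100 * t * ((T4 (mT a (1 / 100) m η) (Pi.single b 1) (Pi.single c 1)).re -
        (T4 m (Pi.single b 1) (Pi.single c 1)).re) +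
      (t ^ 2 - t / 100) * a ^ 2 / 8 *
        ((qC (Pi.single b (1 : ℂ) + Pi.single c 1 : Fin n → ℂ)) ^ 2 +
        (qC (Pi.single b (1 : ℂ) - Pi.single c 1 : Fin n → ℂ)) ^ 2 -
        2 * (qC (Pi.single b (1 : ℂ) : Fin n → ℂ)) ^ 2 -
        2 * (qC (Pi.single c (1 : ℂ) : Fin n → ℂ)) ^ 2).re := by
    intro b c
    have e : T4 (mT a t m η) (Pi.single b 1) (Pi.single c 1) =
        T4 m (Pi.single b 1) (Pi.single c 1) + ((100 * t : ℝ) : ℂ) *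
        (T4 (mT a (1 / 100) m η) (Pi.single b 1) (Pi.single c 1) -
          T4 m (Pi.single b 1) (Pi.single c 1)) +
        (((t ^ 2 - t / 100) * a ^ 2 / 8 : ℝ) : ℂ) *
        ((qC (Pi.single b (1 : ℂ) + Pi.single c 1 : Fin n → ℂ)) ^ 2 +
        (qC (Pi.single b (1 : ℂ) - Pi.single c 1 : Fin n → ℂ)) ^ 2 -
        2 * (qC (Pi.single b (1 : ℂ) : Fin n → ℂ)) ^ 2 -
        2 * (qC (Pi.single c (1 : ℂ) : Fin n → ℂ)) ^ 2) := by
      unfold T4
      rw [hm, hm, hm, hm]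
      push_cast
      ring
    rw [e, Complex.add_re, Complex.add_re, Complex.re_ofReal_mul, Complex.re_ofReal_mul,
      Complex.sub_re]
  have hsum : ∑ b : Fin n, ∑ c : Fin n, (T4 (mT a t m η) (Pi.single b 1) (Pi.single c 1)).re =
      ∑ b : Fin n, ∑ c : Fin n, (T4 m (Pi.single b 1) (Pi.single c 1)).re +
      100 * t * (∑ b : Fin n, ∑ c : Fin n,
        (T4 (mT a (1 / 100) m η) (Pi.single b 1) (Pi.single c 1)).re -
        ∑ b : Fin n, ∑ c : Fin n, (T4 m (Pi.single b 1) (Pi.single c 1)).re) +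
      (t ^ 2 - t / 100) * a ^ 2 / 8 * ∑ b : Fin n, ∑ c : Fin n,
        ((qC (Pi.single b (1 : ℂ) + Pi.single c 1 : Fin n → ℂ)) ^ 2 +
        (qC (Pi.single b (1 : ℂ) - Pi.single c 1 : Fin n → ℂ)) ^ 2 -
        2 * (qC (Pi.single b (1 : ℂ) : Fin n → ℂ)) ^ 2 -
        2 * (qC (Pi.single c (1 : ℂ) : Fin n → ℂ)) ^ 2).re := by
    simp only [Finset.mul_sum, ← Finset.sum_sub_distrib, ← Finset.sum_add_distrib]
    exact Finset.sum_congr rfl fun b _ => Finset.sum_congr rfl fun c _ => hT b c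
  rw [hw]
  unfold qb
  rw [hsum]
  ring

end

section
variable {N n : ℕ} {G : Subgroup (UN N)} {B : Frame G n} {hG : IsClosed (G : Set (UN N))}
variable [CompactSpace G] [MeasurableSpace G] [BorelSpace G] {μ : Measure G}
  [IsProbabilityMeasure μ] [μ.IsMulLeftInvariant] [μ.IsMulRightInvariant] [μ.IsInvInvariant]
variable {cA : ℝ}

variable (μ) in
/-- **the sharp law of the coupling for finite perturbations** -/
theorem sharp_pair (hG : IsClosed (G : Set (UN N))) (hI : IsoG B) (hn : 0 < n)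
    (hcA : ∀ x : Fin n → ℝ, ∑ a, ‖LX B x * B.X a - B.X a * LX B x‖ ^ 2 = cA * nE x ^ 2)
    (h6 : H6 B) (hcas : CasPair B cA) :
    ∃ r₁ ε₁ : ℝ, 0 < r₁ ∧ r₁ ≤ 1 ∧ 0 < ε₁ ∧ ε₁ ≤ 1 / 2000 ∧ ∀ r : ℝ, 0 < r → r ≤ r₁ →
      GoodR B r ∧ ∃ k₀ K : ℝ, 1 ≤ k₀ ∧ 0 ≤ K ∧ ∀ {k M a lam L : ℝ} {f g : G → ℝ}
        {F H : (Mat N)ˣ → ℂ} {m η : (Fin n → ℂ) → ℂ}, k₀ ≤ k → NR B r ε₁ k M f F m →
        TubeS B r k F → CF g H → Tg B r k a lam L F H η → |a| + lam + L ≤ 1 →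
        ∀ {k0 M0 : ℝ} {m0 : (Fin n → ℂ) → ℂ}, St B r k0 M0 (convC μ F F) m0 →
        ∀ {t kt Mt : ℝ} {mt : (Fin n → ℂ) → ℂ}, |t| ≤ 1 / 100 →
          St B r kt Mt (convC μ (fun u => F u + (t : ℂ) * H u)
            (fun u => F u + (t : ℂ) * H u)) mt →
          |(kt - ((k + t * a) / 2 - cA / 48 + (cA ^ 2 / 2304 +
              3 * qb n (N991.MK.mT a t m η)) / (k + t * a))) -
            (k0 - (k / 2 - cA / 48 + (cA ^ 2 / 2304 + 3 * qb n m) / k))| ≤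
            K * |t| * (1 + M) / k ^ 2 := by
  obtain ⟨r₀, C, b, Cm, Cq, rA, εA, hrA, hrA1, hεA, hεA2, hCm, hCq, hCqr, hHy⟩ :=
    exists_HyN B hG μ
  obtain ⟨rB, εB, hrB, hεB, hεB2, hlaw⟩ := two_KN μ hG hI hn hcA h6 hcas
  obtain ⟨εm, hεm⟩ : ∃ εm : ℝ, εm = min εA εB := ⟨_, rfl⟩
  have hεm0 : 0 < εm := by rw [hεm]; exact lt_min hεA hεB
  have hεm1 : εm ≤ εA := by rw [hεm]; exact min_le_left _ _
  have hεm2 : εm ≤ εB := by rw [hεm]; exact min_le_right _ _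
  refine ⟨min rA rB, εm / 4, lt_min hrA hrB, (min_le_left _ _).trans hrA1, by linarith,
    by linarith, fun r hr hrr => ?_⟩
  have hr1 : r ≤ 1 := hrr.trans ((min_le_left _ _).trans hrA1)
  obtain ⟨hgr, ka, hka, hHy⟩ := hHy r hr (hrr.trans (min_le_left _ _))
  obtain ⟨kb, K, hkb, hK, hlaw⟩ := hlaw r hr (hrr.trans (min_le_right _ _))
  obtain ⟨kc, hkc, hmom⟩ := moments_tv (hG := hG) B μ hgr
  obtain ⟨Gc, hGc⟩ : ∃ Gc : ℝ, Gc = 2 * (2 * Cm + 1) + (20 * Cm + 1) := ⟨_, rfl⟩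
  have hGc0 : 0 ≤ Gc := by rw [hGc]; positivity
  refine ⟨hgr, max (max (ka + 1) (kb + 1)) (max (max kc (4 / εm)) (4 * Gc)),
    (60000 + 4 * (1 + 4 * Gc)) * (8 * K),
    le_trans (by linarith) ((le_max_left _ _).trans (le_max_left _ _)),
    by positivity, ?_⟩
  intro k M a lam L f g F H m η hk hN hS hg T hsum k0 M0 m0 s0
  have hk1 : ka + 1 ≤ k := ((le_max_left _ _).trans (le_max_left _ _)).trans hk
  have hk2 : kb + 1 ≤ k := ((le_max_right _ _).trans (le_max_left _ _)).trans hk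
  have hk3 : kc ≤ k := (((le_max_left _ _).trans (le_max_left _ _)).trans (le_max_right _ _)).trans hk
  have hk4 : 4 / εm ≤ k :=
    (((le_max_right _ _).trans (le_max_left _ _)).trans (le_max_right _ _)).trans hk
  have hk5 : 4 * Gc ≤ k := ((le_max_right _ _).trans (le_max_right _ _)).trans hk
  have hk1' : 1 ≤ k := by linarith
  have hk0 : 0 < k := by linarith
  have hM := hN.M0
  have hMl := hN.Ml
  have hlam := T.lam0
  have hL := T.L0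
  have ha0 := abs_nonneg a
  have ha1 : |a| ≤ 1 := by linarith
  have hek : 4 ≤ εm * k := by
    rw [div_le_iff₀ hεm0] at hk4
    linarith
  have hr2 : r ^ 2 ≤ 1 := pow_le_one₀ hr.le hr1
  have hMk : M * r ^ 2 ≤ εm * k := by linarith
  have hM1 : (M + 1) * r ^ 2 ≤ εm * (k - 1) := by
    have : εm ≤ 1 := by linarith
    nlinarith
  -- the base state
  obtain ⟨Y, -⟩ := hHy (k := k) (M := M) (by linarith) hM (hMk.trans
    (mul_le_mul_of_nonneg_right hεm1 hk0.le)) hN.cf hN.ne hN.st hN.tb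
  have hMr : M * r ^ 2 ≤ k / 1000 := by
    have := mul_le_mul_of_nonneg_right (hεm1.trans hεA2) hk0.le
    linarith
  obtain ⟨b1, b2⟩ := hmom hk3 hMr Y hN.one hg T.tv hlam hL hsum
  have hW := Y.hW
  -- the perturbed states
  have hp : ∀ t : ℝ, |t| ≤ 1 / 100 → NR B r εm (k + t * a) (M + 1) (fun x => f x + t * g x)
      (fun u => F u + t * H u) (N991.MK.mT a t m η) := fun t ht =>
    Tg_nr T hgr hN hg hS hsum ht hk1' hM1 (hεm1.trans hεA2) hεm0.le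
  have hta : ∀ t : ℝ, |t| ≤ 1 / 100 → k - 1 / 100 ≤ k + t * a := by
    intro t ht
    have h1 : |t * a| ≤ 1 / 100 := by
      rw [abs_mul]
      have := mul_le_mul ht ha1 ha0 (by norm_num)
      linarith
    have := (abs_le.1 h1).1
    linarith
  have hlw : ∀ t : ℝ, |t| ≤ 1 / 100 → ∀ {k' M' : ℝ} {m' : (Fin n → ℂ) → ℂ},
      St B r k' M' (convC μ (fun u => F u + (t : ℂ) * H u) (fun u => F u + (t : ℂ) * H u)) m' →
      |k' - ((k + t * a) / 2 - cA / 48 + (cA ^ 2 / 2304 + 3 * qb n (N991.MK.mT a t m η)) /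
        (k + t * a))| ≤ 8 * K * (1 + M) / k ^ 2 := by
    intro t ht k' M' m' s'
    have hN' := hp t ht
    have h1 := hta t ht
    refine law_shift hK hM hk1' (A := k + t * a) (by linarith) ?_
    exact hlaw (by linarith) (by linarith)
      (hN'.Ml.trans (mul_le_mul_of_nonneg_right hεm2 (by linarith))) hN'.cf hN'.ne hN'.st hN'.tb s'
  have hex : ∀ t : ℝ, |t| ≤ 1 / 100 → ∃ (k' M' : ℝ) (m' : (Fin n → ℂ) → ℂ),
      St B r k' M' (convC μ (fun u => F u + (t : ℂ) * H u)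
        (fun u => F u + (t : ℂ) * H u)) m' := by
    intro t ht
    have hN' := hp t ht
    have h1 := hta t ht
    obtain ⟨Y', -⟩ := hHy (k := k + t * a) (M := M + 1) (by linarith) (by linarith)
      (hN'.Ml.trans (mul_le_mul_of_nonneg_right hεm1 (by linarith))) hN'.cf hN'.ne hN'.st hN'.tb
    exact exists_conv_st hI hn Y'
  obtain ⟨kp, Mp, mp, sp⟩ := hex (1 / 100) (by rw [abs_of_pos (by norm_num)])
  obtain ⟨km, Mm, mm, sm⟩ := hex (-(1 / 100)) (by rw [abs_neg, abs_of_pos (by norm_num)])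
  -- the quartic parts
  have Q0 := hN.st.qrt hN.cf.hol hN.ne hr hM
  obtain ⟨e1, e2, hqb⟩ := qb_mT hr hr1 T hsum Q0 fun t ht =>
    ⟨_, _, (hp t ht).st.qrt (hp t ht).cf.hol (hp t ht).ne hr (by linarith)⟩
  -- the moments
  have hγ : |(2 * ∫ z, f z * g z ∂μ) / (∫ z, (f z) ^ 2 ∂μ)| ≤ Gc / k := by
    rw [abs_div, abs_of_pos hW, div_le_iff₀ hW, abs_mul, abs_two]
    have h1 : |∫ z, f z * g z ∂μ| ≤ ∫ z, |f z| * |g z| ∂μ := by
      refine (abs_integral_le_integral_abs).trans (le_of_eq ?_)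
      refine integral_congr_ae (Eventually.of_forall fun z => ?_)
      exact abs_mul _ _
    have h2 : 1 * (2 * Cm + 1) / k * (∫ z, (f z) ^ 2 ∂μ) ≤
        Gc / 2 / k * ∫ z, (f z) ^ 2 ∂μ := by
      refine mul_le_mul_of_nonneg_right (div_le_div_of_nonneg_right ?_ hk0.le) hW.le
      rw [hGc]
      linarith
    have e : Gc / k * ∫ z, (f z) ^ 2 ∂μ = 2 * (Gc / 2 / k * ∫ z, (f z) ^ 2 ∂μ) := by ring
    rw [e]
    linarith
  have hc : |(∫ z, (g z) ^ 2 ∂μ) / (∫ z, (f z) ^ 2 ∂μ)| ≤ Gc / k ^ 2 := by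
    have h0 : 0 ≤ ∫ z, (g z) ^ 2 ∂μ := integral_nonneg fun z => sq_nonneg _
    rw [abs_div, abs_of_pos hW, abs_of_nonneg h0, div_le_iff₀ hW]
    refine b2.trans (mul_le_mul_of_nonneg_right (div_le_div_of_nonneg_right ?_ (by positivity))
      hW.le)
    rw [hGc]
    linarith
  obtain ⟨γ, hγd⟩ : ∃ γ : ℝ, γ = (2 * ∫ z, f z * g z ∂μ) / (∫ z, (f z) ^ 2 ∂μ) := ⟨_, rfl⟩
  obtain ⟨c, hcd⟩ : ∃ c : ℝ, c = (∫ z, (g z) ^ 2 ∂μ) / (∫ z, (f z) ^ 2 ∂μ) := ⟨_, rfl⟩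
  obtain ⟨id1, -⟩ := sharp_id (B := B) hn hr hr1 hN.cf hg hW s0 sp sm
  rw [← hγd] at hγ id1
  rw [← hcd] at hc id1
  -- the coupling as a function of the parameter
  have hsel : ∃ Kf : ℝ → ℝ, ∀ s : ℝ, |s| ≤ 1 / 100 → ∃ (M' : ℝ) (m' : (Fin n → ℂ) → ℂ),
      St B r (Kf s) M' (convC μ (fun u => F u + (s : ℂ) * H u)
        (fun u => F u + (s : ℂ) * H u)) m' := by
    classical
    refine ⟨fun s => if h : |s| ≤ 1 / 100 then (hex s h).choose else 0, fun s hs => ?_⟩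
    beta_reduce
    rw [dif_pos hs]
    exact (hex s hs).choose_spec
  obtain ⟨Kf, hKf⟩ := hsel
  intro t kt Mt mt ht st
  have hconv : ∀ s : ℝ, |s| ≤ 1 / 100 → convC μ (fun u => F u + (s : ℂ) * H u)
      (fun u => F u + (s : ℂ) * H u) 1 ≠ 0 := by
    intro s hs
    have hN' := hp s hs
    have h1 := hta s hs
    obtain ⟨Y', -⟩ := hHy (k := k + s * a) (M := M + 1) (by linarith) (by linarith)
      (hN'.Ml.trans (mul_le_mul_of_nonneg_right hεm1 (by linarith))) hN'.cf hN'.ne hN'.st hN'.tb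
    rw [N988.MK.conv_one (B := B) (hG := hG) hN'.cf]
    exact Y'.Wne
  have hkt : Kf t = kt := by
    obtain ⟨M', m', s'⟩ := hKf t ht
    exact (St.uniq s' st hr hn (hconv t ht) fun x => rfl).1
  have hk00 : Kf 0 = k0 := by
    obtain ⟨M', m', s'⟩ := hKf 0 (by rw [abs_zero]; norm_num)
    have e : (fun u => F u + ((0 : ℝ) : ℂ) * H u) = F := by
      funext u
      rw [Complex.ofReal_zero, zero_mul, add_zero]
    have h1 := hconv 0 (by rw [abs_zero]; norm_num)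
    rw [e] at s' h1
    exact (St.uniq s' s0 hr hn h1 fun x => rfl).1
  have hfin := pair_arith (c1 := cA / 48) (c2 := cA ^ 2 / 2304) (k0 := k0) (kp := kp) (km := km)
    (q0 := qb n m) (e1 := e1) (e2 := e2) (E := 8 * K * (1 + M) / k ^ 2) (K := Kf)
    hk1' hk5 ha1 hGc0 hγ hc (fun s hs => by
      obtain ⟨M', m', s'⟩ := hKf s hs
      exact id1 s') (fun s hs => by
      obtain ⟨M', m', s'⟩ := hKf s hs
      have h1 := hlw s hs s'
      rw [hqb s hs] at h1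
      exact h1) ht
  rw [hkt, hk00] at hfin
  rw [hqb t ht]
  refine hfin.trans (le_of_eq ?_)
  ring

end

end

end Pool.Agent.N988.MK.T3
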